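import Pool.Agent.helper28.SG.StepB

/-!
# The law of the pencil polynomial
-/

set_option autoImplicit false
open MeasureTheory ProbabilityTheory Filter Topology
open scoped NNReal ENNReal

namespace Pool.Agent.helper28.SG

open Pool.Agent.helper84.SG Polynomial

lemma coeff_ofc {n : ℕ} (f : Fin (n + 1) → ℂ) (j : ℕ) :
    (ofc f).coeff j = if h : j < n + 1 then f ⟨j, h⟩ else 0 := by
  unfold ofc
  rw [finsetSum_coeff]
  simp only [coeff_C_mul, coeff_X_pow]
  split_ifs with h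
  · rw [Finset.sum_eq_single (⟨j, h⟩ : Fin (n + 1))]
    · simp
    · intro b _ hb
      rw [if_neg]
      · simp
      · intro hc
        exact hb (Fin.ext hc.symm)
    · simp
  · refine Finset.sum_eq_zero fun k _ => ?_
    rw [if_neg]
    · simp
    · have := k.2
      omega

lemma ofc_pcoef {n : ℕ} {P : ℂ[X]} (hP : P.natDegree ≤ n) : ofc (pcoef n P) = P := by
  ext j
  rw [coeff_ofc]
  split_ifs with h
  · rfl
  · exact (coeff_eq_zero_of_natDegree_lt (by omega)).symm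

/-- homogeneous evaluation of a polynomial -/
lemma hev_pcoef {n : ℕ} {P : ℂ[X]} (hP : P.natDegree ≤ n) {s t : ℂ} (ht : t ≠ 0) :
    hev (pcoef n P) (s, t) = t ^ n * P.eval (s / t) := by
  unfold hev pcoef
  rw [eval_eq_sum_range' (n := n + 1) (by omega), Finset.mul_sum, Finset.sum_range]
  refine Finset.sum_congr rfl fun k _ => ?_
  have hk : (k : ℕ) ≤ n := by have := k.2; omega
  have : t ^ n = t ^ (k : ℕ) * t ^ (n - (k : ℕ)) := by rw [← pow_add]; congr 1; omega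
  rw [this, div_pow]
  field_simp

lemma hev_pcoef_zero {n : ℕ} {P : ℂ[X]} (s : ℂ) :
    hev (pcoef n P) (s, 0) = P.coeff n * s ^ n := by
  unfold hev pcoef
  rw [Finset.sum_eq_single (Fin.last n)]
  · simp
  · intro b _ hb
    have : n - (b : ℕ) ≠ 0 := by
      have h1 := b.2
      have h2 : (b : ℕ) ≠ n := fun h => hb (Fin.ext h)
      omega
    simp [this]
  · simp

lemma ppoly_eq {n : ℕ} (M : (Fin n → Fin n → ℂ) × (Fin n → Fin n → ℂ)) :
    ppoly M = ((X : ℂ[X]) • (Matrix.of M.2).map C + (-Matrix.of M.1).map C).det := by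
  unfold ppoly
  congr 1
  rw [sub_eq_add_neg]
  congr 1
  ext i j
  simp

lemma natDegree_ppoly {n : ℕ} (M : (Fin n → Fin n → ℂ) × (Fin n → Fin n → ℂ)) :
    (ppoly M).natDegree ≤ n := by
  rw [ppoly_eq]
  have := natDegree_det_X_add_C_le (Matrix.of M.2) (-Matrix.of M.1)
  rwa [Fintype.card_fin] at this

lemma hev_ppoly {n : ℕ} (M : (Fin n → Fin n → ℂ) × (Fin n → Fin n → ℂ)) (v : ℂ × ℂ) :
    hev (pcoef n (ppoly M)) v = pf M v := by
  obtain ⟨s, t⟩ := v
  by_cases ht : t = 0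
  · subst ht
    rw [hev_pcoef_zero]
    have h1 : (ppoly M).coeff n = (Matrix.of M.2).det := by
      rw [ppoly_eq]
      have := coeff_det_X_add_C_card (Matrix.of M.2) (-Matrix.of M.1)
      rwa [Fintype.card_fin] at this
    rw [h1]
    unfold pf
    simp only [zero_smul, sub_zero]
    rw [Matrix.det_smul, Fintype.card_fin, mul_comm]
  · rw [hev_pcoef (natDegree_ppoly M) ht]
    unfold pf ppoly
    have h1 : (s • Matrix.of M.2 - t • Matrix.of M.1) =
        t • ((s / t) • Matrix.of M.2 - Matrix.of M.1) := by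
      rw [smul_sub, smul_smul, mul_div_cancel₀ _ ht]
    simp only [h1]
    rw [Matrix.det_smul, Fintype.card_fin]
    congr 1
    rw [← coe_evalRingHom, RingHom.map_det]
    congr 1
    ext i j
    simp
    ring

lemma natDegree_lin (a b : ℂ) : (C b * X - C a).natDegree ≤ 1 := by
  rw [sub_eq_add_neg, ← C_neg]
  exact natDegree_linear_le

lemma natDegree_vpoly {n : ℕ} (v : Fin n → ℂ × ℂ) : (vpoly v).natDegree ≤ n := by
  unfold vpoly
  refine (natDegree_prod_le _ _).trans ?_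
  refine (Finset.sum_le_sum fun i _ => natDegree_lin (v i).1 (v i).2).trans ?_
  simp

lemma hev_vpoly {n : ℕ} (v : Fin n → ℂ × ℂ) (e : ℂ × ℂ) :
    hev (pcoef n (vpoly v)) e = ∏ k, (e.1 * (v k).2 - (v k).1 * e.2) := by
  obtain ⟨s, t⟩ := e
  by_cases ht : t = 0
  · subst ht
    rw [hev_pcoef_zero]
    have h1 : (vpoly v).coeff n = ∏ k, (v k).2 := by
      unfold vpoly
      have := coeff_prod_of_natDegree_le (s := (Finset.univ : Finset (Fin n)))
        (fun k => C (v k).2 * X - C (v k).1) 1 (fun k _ => natDegree_lin _ _)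
      rw [Finset.card_univ, Fintype.card_fin, mul_one] at this
      rw [this]
      refine Finset.prod_congr rfl fun k _ => ?_
      simp [coeff_C]
    rw [h1]
    simp only [mul_zero, sub_zero]
    rw [Finset.prod_mul_distrib, Finset.prod_const, Finset.card_univ, Fintype.card_fin, mul_comm]
  · rw [hev_pcoef (natDegree_vpoly v) ht]
    unfold vpoly
    rw [eval_prod]
    have : t ^ n = ∏ _k : Fin n, t := by simp
    rw [this, ← Finset.prod_mul_distrib]
    refine Finset.prod_congr rfl fun k _ => ?_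
    simp
    field_simp

lemma vpoly_cons {n : ℕ} (v : ℂ × ℂ) (v' : Fin n → ℂ × ℂ) :
    vpoly (Fin.cons v v' : Fin (n + 1) → ℂ × ℂ) = (C v.2 * X - C v.1) * vpoly v' := by
  unfold vpoly
  rw [Fin.prod_univ_succ]
  simp

lemma vand_cons {n : ℕ} (v : ℂ × ℂ) (v' : Fin n → ℂ × ℂ) :
    vand (Fin.cons v v' : Fin (n + 1) → ℂ × ℂ) =
      ‖hev (pcoef n (vpoly v')) v‖ ^ 2 * vand v' := by
  unfold vand
  rw [Fin.prod_univ_succ, Fin.prod_Ioi_zero]
  simp only [Fin.prod_Ioi_succ, Fin.cons_zero, Fin.cons_succ]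
  rw [hev_vpoly, norm_prod, Finset.prod_pow]

lemma vand_nonneg {n : ℕ} (v : Fin n → ℂ × ℂ) : 0 ≤ vand v := by
  unfold vand; positivity

lemma MP.vpoly {n : ℕ} : MP fun v : Fin n → ℂ × ℂ => vpoly v := by
  unfold Pool.Agent.helper84.SG.vpoly
  refine MP.prod _ fun i _ => ?_
  exact ((MP.C (by fun_prop)).mul (MP.const X)).sub (MP.C (by fun_prop))

lemma measurable_vand {n : ℕ} : Measurable (vand : (Fin n → ℂ × ℂ) → ℝ) := by
  unfold vand
  fun_prop

lemma measurable_hev {n : ℕ} (v : ℂ × ℂ) : Measurable fun f : Fin (n + 1) → ℂ => hev f v := by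
  unfold hev
  fun_prop

lemma MP.ofc {n : ℕ} : MP fun f : Fin (n + 1) → ℂ => ofc f := by
  unfold Pool.Agent.helper84.SG.ofc
  exact MP.sum _ fun i _ => (MP.C (by fun_prop)).mul (MP.const _)

lemma hev_smul {n : ℕ} (ω : ℂ) (f : Fin (n + 1) → ℂ) (v : ℂ × ℂ) :
    hev (ω • f) v = ω * hev f v := by
  unfold hev
  rw [Finset.mul_sum]
  refine Finset.sum_congr rfl fun k _ => ?_
  simp only [Pi.smul_apply, smul_eq_mul]
  ring

lemma ofc_smul {n : ℕ} (ω : ℂ) (f : Fin (n + 1) → ℂ) : ofc (ω • f) = C ω * ofc f := by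
  unfold ofc
  rw [Finset.mul_sum]
  refine Finset.sum_congr rfl fun k _ => ?_
  simp only [Pi.smul_apply, smul_eq_mul, C_mul]
  ring

theorem law_aux (hKR : ∀ N, KacRice N) : ∀ n : ℕ, ∃ K : ℝ≥0∞, K ≠ ∞ ∧
    ∀ Ψ : (Fin (n + 1) → ℂ) → ℝ≥0∞, Measurable Ψ → (∀ (ω : ℂ) (f), ‖ω‖ = 1 → Ψ (ω • f) = Ψ f) →
      ∫⁻ M, Ψ (pcoef n (ppoly M)) ∂(pen n) =
        K * ∫⁻ v, Ψ (pcoef n (vpoly v)) * ENNReal.ofReal (vand v) ∂(ens n) := by
  intro n
  induction n with
  | zero =>
    refine ⟨1, ENNReal.one_ne_top, fun Ψ _ _ => ?_⟩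
    have h1 : ∀ M : (Fin 0 → Fin 0 → ℂ) × (Fin 0 → Fin 0 → ℂ), ppoly M = 1 := fun M =>
      Matrix.det_isEmpty
    have h2 : ∀ v : Fin 0 → ℂ × ℂ, vpoly v = 1 := fun v => by simp [vpoly]
    have h3 : ∀ v : Fin 0 → ℂ × ℂ, vand v = 1 := fun v => by simp [vand]
    simp [h1, h2, h3]
  | succ n ih =>
    obtain ⟨K, hK, ih⟩ := ih
    obtain ⟨c, -, hc, hd⟩ := deflation_of (hKR n)
    refine ⟨c * K, ENNReal.mul_ne_top hc hK, fun Ψ hΨ hinv => ?_⟩
    rw [hd Ψ hΨ hinv]
    have h1 : ∀ v : ℂ × ℂ, ∫⁻ M', ENNReal.ofReal (‖pf M' v‖ ^ 2) *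
          Ψ (pcoef (n + 1) ((C v.2 * X - C v.1) * ppoly M')) ∂(pen n) =
        K * ∫⁻ v', Ψ (pcoef (n + 1) (vpoly (Fin.cons v v' : Fin (n + 1) → ℂ × ℂ))) *
          ENNReal.ofReal (vand (Fin.cons v v' : Fin (n + 1) → ℂ × ℂ)) ∂(ens n) := by
      intro v
      have hm : Measurable fun f : Fin (n + 1) → ℂ => ENNReal.ofReal (‖hev f v‖ ^ 2) *
          Ψ (pcoef (n + 1) ((C v.2 * X - C v.1) * ofc f)) :=
        (ENNReal.measurable_ofReal.comp ((measurable_hev v).norm.pow_const 2)).mul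
          (hΨ.comp (MP.pcoef ((MP.const _).mul MP.ofc) _))
      have h2 := ih (fun f => ENNReal.ofReal (‖hev f v‖ ^ 2) *
          Ψ (pcoef (n + 1) ((C v.2 * X - C v.1) * ofc f))) hm (by
        intro ω f hω
        rw [hev_smul, norm_mul, hω, one_mul, ofc_smul]
        congr 1
        rw [show (C v.2 * X - C v.1) * (C ω * ofc f) = C ω * ((C v.2 * X - C v.1) * ofc f) by ring,
          pcoef_C_mul, hinv _ _ hω])
      simp only [hev_ppoly, ofc_pcoef (natDegree_ppoly _), ofc_pcoef (natDegree_vpoly _)] at h2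
      rw [h2]
      congr 1
      refine lintegral_congr fun v' => ?_
      rw [vand_cons, vpoly_cons, ENNReal.ofReal_mul (by positivity)]
      ring
    simp only [h1]
    rw [lintegral_const_mul' _ _ hK, mul_assoc]
    congr 2
    have hm : Measurable fun w : Fin (n + 1) → ℂ × ℂ => Ψ (pcoef (n + 1) (vpoly w)) *
        ENNReal.ofReal (vand w) :=
      (hΨ.comp (MP.pcoef MP.vpoly _)).mul (ENNReal.measurable_ofReal.comp measurable_vand)
    have hmp := (measurePreserving_piFinSuccAbove (fun _ : Fin (n + 1) => cg.prod cg) 0).symm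
    have h2 := hmp.lintegral_comp hm
    have h3 : ens (n + 1) = Measure.pi fun _ => cg.prod cg := rfl
    have h5 : Measurable fun a : (ℂ × ℂ) × (Fin n → ℂ × ℂ) =>
        Ψ (pcoef (n + 1) (vpoly ((MeasurableEquiv.piFinSuccAbove
          (fun _ : Fin (n + 1) => ℂ × ℂ) 0).symm a))) *
        ENNReal.ofReal (vand ((MeasurableEquiv.piFinSuccAbove
          (fun _ : Fin (n + 1) => ℂ × ℂ) 0).symm a)) := hm.comp hmp.measurable
    rw [h3, ← h2, lintegral_prod _ h5.aemeasurable]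
    refine lintegral_congr fun v => lintegral_congr fun v' => ?_
    have h4 : (MeasurableEquiv.piFinSuccAbove (fun _ : Fin (n + 1) => ℂ × ℂ) 0).symm (v, v') =
        (Fin.cons v v' : Fin (n + 1) → ℂ × ℂ) := by
      simp [MeasurableEquiv.piFinSuccAbove]
      rfl
    rw [h4]

/-- **Law of the pencil polynomial.** -/
theorem pencil_law_of (hKR : ∀ N, KacRice N) (n : ℕ) (Ψ : (Fin (n + 1) → ℂ) → ℝ≥0∞)
    (hΨ : Measurable Ψ) (hinv : ∀ (ω : ℂ) (f), ‖ω‖ = 1 → Ψ (ω • f) = Ψ f) :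
    (∫⁻ v, ENNReal.ofReal (vand v) ∂(ens n)) * ∫⁻ M, Ψ (pcoef n (ppoly M)) ∂(pen n) =
      ∫⁻ v, Ψ (pcoef n (vpoly v)) * ENNReal.ofReal (vand v) ∂(ens n) := by
  obtain ⟨K, hK, h⟩ := law_aux hKR n
  have h1 := h (fun _ => 1) measurable_const (fun _ _ _ => rfl)
  rw [lintegral_one, measure_univ] at h1
  simp only [one_mul] at h1
  rw [h Ψ hΨ hinv, ← mul_assoc, mul_comm _ K, ← h1, one_mul]

end Pool.Agent.helper28.SG
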