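import Mathlib
import Pool.Agent.helper84.SG.Defs

/-!
# Gaussian densities, linear changes of variables, radial integrals (MP_55470d_pr, module A)
-/

set_option autoImplicit false
open MeasureTheory ProbabilityTheory Filter Topology
open scoped NNReal ENNReal

namespace Pool.Agent.helper28.SG

open Pool.Agent.helper84.SG

/-! ### products of functions over product measures -/

lemma lintegral_pi_prod {α : Type*} [MeasurableSpace α] (μ : Measure α) [SigmaFinite μ] :
    ∀ (n : ℕ) (g : Fin n → α → ℝ≥0∞), (∀ i, Measurable (g i)) →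
      ∫⁻ x, ∏ i, g i (x i) ∂(Measure.pi fun _ : Fin n => μ) = ∏ i, ∫⁻ a, g i a ∂μ := by
  intro n
  induction n with
  | zero =>
    intro g hg
    simp
  | succ n ih =>
    intro g hg
    have hmp := (measurePreserving_piFinSuccAbove (fun _ : Fin (n + 1) => μ) 0).symm
    rw [← hmp.lintegral_comp_emb (MeasurableEquiv.measurableEmbedding _)]
    rw [Fin.prod_univ_succ, ← ih (fun i => g i.succ) (fun i => hg _)]
    rw [← lintegral_prod_mul (hg 0).aemeasurable]
    · refine lintegral_congr fun p => ?_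
      rw [Fin.prod_univ_succ]
      simp [MeasurableEquiv.piFinSuccAbove]
    · refine (Finset.measurable_fun_prod _ fun i _ => ?_).aemeasurable
      exact (hg _).comp (measurable_pi_apply i)

lemma pi_withDensity {α : Type*} [MeasurableSpace α] (μ : Measure α) [SigmaFinite μ]
    (f : α → ℝ≥0∞) (hf : Measurable f) [hs : SigmaFinite (μ.withDensity f)] (n : ℕ) :
    (Measure.pi fun _ : Fin n => μ.withDensity f) =
      (Measure.pi fun _ : Fin n => μ).withDensity (fun x => ∏ i, f (x i)) := by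
  refine Measure.pi_eq fun s hs => ?_
  rw [withDensity_apply _ (MeasurableSet.univ_pi hs), ← lintegral_indicator (MeasurableSet.univ_pi hs)]
  have h1 : (fun x : Fin n → α => (Set.univ.pi s).indicator (fun x => ∏ i, f (x i)) x) =
      fun x => ∏ i, (s i).indicator f (x i) := by
    funext x
    by_cases hx : x ∈ Set.univ.pi s
    · rw [Set.indicator_of_mem hx]
      refine Finset.prod_congr rfl fun i _ => ?_
      rw [Set.indicator_of_mem (hx i (Set.mem_univ i))]
    · rw [Set.indicator_of_notMem hx]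
      simp only [Set.mem_pi, Set.mem_univ, true_implies, not_forall] at hx
      obtain ⟨i, hi⟩ := hx
      exact (Finset.prod_eq_zero (Finset.mem_univ i) (Set.indicator_of_notMem hi f)).symm
  rw [h1, lintegral_pi_prod μ n (fun i => (s i).indicator f) (fun i => hf.indicator (hs i))]
  refine Finset.prod_congr rfl fun i _ => ?_
  rw [lintegral_indicator (hs i), withDensity_apply _ (hs i)]

/-! ### Gaussian densities -/

/-- the density of `cg` -/
noncomputable def phi (z : ℂ) : ℝ≥0∞ := ENNReal.ofReal (Real.pi⁻¹ * Real.exp (-‖z‖ ^ 2))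

lemma measurable_phi : Measurable phi := by
  unfold phi
  fun_prop

lemma cg_eq : cg = volume.withDensity phi := by
  unfold cg
  rw [gaussianReal_of_var_ne_zero 0 (by norm_num : (1 / 2 : ℝ≥0) ≠ 0)]
  rw [prod_withDensity (measurable_gaussianPDF _ _) (measurable_gaussianPDF _ _)]
  ext s hs
  have hmp := Complex.volume_preserving_equiv_real_prod.symm
  rw [Measure.map_apply measurable_toC hs, withDensity_apply _ (measurable_toC hs),
    withDensity_apply _ hs]
  have h2 := hmp.setLIntegral_comp_preimage_emb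
    (MeasurableEquiv.measurableEmbedding _) phi s
  rw [← h2]
  have h3 : (Complex.measurableEquivRealProd.symm : ℝ × ℝ → ℂ) =
      fun p : ℝ × ℝ => (p.1 : ℂ) + (p.2 : ℂ) * Complex.I := by
    funext p
    apply Complex.ext <;> simp [Complex.measurableEquivRealProd]
  rw [h3]
  refine lintegral_congr fun p => ?_
  simp only [gaussianPDF, gaussianPDFReal, phi]
  rw [← ENNReal.ofReal_mul (by positivity)]
  congr 1
  have h4 : ‖(p.1 : ℂ) + (p.2 : ℂ) * Complex.I‖ ^ 2 = p.1 ^ 2 + p.2 ^ 2 := by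
    rw [← Complex.normSq_eq_norm_sq, Complex.normSq_add_mul_I]
  rw [h4]
  have h5 : (2 * Real.pi * ((1 / 2 : ℝ≥0) : ℝ)) = Real.pi := by
    push_cast; ring
  rw [h5]
  have h6 : (√Real.pi)⁻¹ * (√Real.pi)⁻¹ = Real.pi⁻¹ := by
    rw [← mul_inv, Real.mul_self_sqrt Real.pi_pos.le]
  have h7 : Real.exp (-(p.1 ^ 2 + p.2 ^ 2)) = Real.exp (-(p.1 - 0) ^ 2 / (2 * ((1 / 2 : ℝ≥0) : ℝ))) *
      Real.exp (-(p.2 - 0) ^ 2 / (2 * ((1 / 2 : ℝ≥0) : ℝ))) := by
    rw [← Real.exp_add]
    congr 1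
    push_cast
    ring
  rw [h7, ← h6]
  ring

/-- squared Hilbert–Schmidt norm -/
noncomputable def nsq {m n : ℕ} (A : Fin m → Fin n → ℂ) : ℝ := ∑ i, ∑ j, ‖A i j‖ ^ 2

/-- squared norm of a vector -/
noncomputable def nv {m : ℕ} (x : Fin m → ℂ) : ℝ := ∑ i, ‖x i‖ ^ 2

lemma nsq_nonneg {m n : ℕ} (A : Fin m → Fin n → ℂ) : 0 ≤ nsq A := by unfold nsq; positivity
lemma nv_nonneg {m : ℕ} (A : Fin m → ℂ) : 0 ≤ nv A := by unfold nv; positivity

lemma continuous_nsq {m n : ℕ} : Continuous (nsq : (Fin m → Fin n → ℂ) → ℝ) := by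
  unfold nsq; fun_prop

lemma continuous_nv {m : ℕ} : Continuous (nv : (Fin m → ℂ) → ℝ) := by
  unfold nv; fun_prop

/-- `exp (-|A|²)` -/
noncomputable def ge {m n : ℕ} (A : Fin m → Fin n → ℂ) : ℝ≥0∞ := ENNReal.ofReal (Real.exp (-nsq A))

lemma measurable_ge {m n : ℕ} : Measurable (ge : (Fin m → Fin n → ℂ) → ℝ≥0∞) := by
  unfold ge
  exact (Real.measurable_exp.comp continuous_nsq.measurable.neg).ennreal_ofReal

/-- normalisation -/
noncomputable def gc (m n : ℕ) : ℝ≥0∞ := ENNReal.ofReal (Real.pi⁻¹ ^ (m * n))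

lemma gc_ne_zero (m n : ℕ) : gc m n ≠ 0 := by
  unfold gc
  have := Real.pi_pos
  simp only [ne_eq, ENNReal.ofReal_eq_zero, not_le]
  positivity

lemma gc_ne_top (m n : ℕ) : gc m n ≠ ∞ := ENNReal.ofReal_ne_top

instance : SigmaFinite (volume.withDensity phi : Measure ℂ) := by
  rw [← cg_eq]; infer_instance

instance (n : ℕ) : SigmaFinite ((volume : Measure (Fin n → ℂ)).withDensity fun x => ∏ i, phi (x i)) := by
  have h := pi_withDensity (volume : Measure ℂ) phi measurable_phi n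
  rw [← cg_eq] at h
  have h2 : (volume : Measure (Fin n → ℂ)) = Measure.pi fun _ => volume := rfl
  rw [h2, ← h]
  infer_instance

lemma gin_eq (m n : ℕ) : gin m n = volume.withDensity fun A => gc m n * ge A := by
  unfold gin
  rw [cg_eq]
  rw [pi_withDensity (volume : Measure ℂ) phi measurable_phi n]
  have h2 : (volume : Measure (Fin n → ℂ)) = Measure.pi fun _ => volume := rfl
  rw [← h2]
  rw [pi_withDensity (volume : Measure (Fin n → ℂ)) (fun x => ∏ i, phi (x i)) ?_ m]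
  · congr 1
    funext A
    unfold phi gc ge nsq
    rw [← ENNReal.ofReal_mul (by positivity)]
    have e1 : ∀ i, ∏ j, ENNReal.ofReal (Real.pi⁻¹ * Real.exp (-‖A i j‖ ^ 2)) =
        ENNReal.ofReal (∏ j, (Real.pi⁻¹ * Real.exp (-‖A i j‖ ^ 2))) := fun i =>
      (ENNReal.ofReal_prod_of_nonneg fun j _ => by positivity).symm
    simp only [e1]
    rw [← ENNReal.ofReal_prod_of_nonneg fun i _ => by positivity]
    congr 1
    simp_rw [Finset.prod_mul_distrib]
    simp only [Finset.prod_const, Finset.card_univ, Fintype.card_fin, ← Real.exp_sum,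
      Finset.sum_neg_distrib]
    rw [← pow_mul, mul_comm n m]
  · refine Finset.measurable_fun_prod _ fun i _ => ?_
    exact measurable_phi.comp (measurable_pi_apply i)

/-- integrals against `ge` -/
lemma lintegral_ge {m n : ℕ} (f : (Fin m → Fin n → ℂ) → ℝ≥0∞) :
    gc m n * ∫⁻ A, f A * ge A = ∫⁻ A, f A ∂(gin m n) := by
  rw [gin_eq, lintegral_withDensity_eq_lintegral_mul_non_measurable _
    (measurable_ge.const_mul _)]
  · rw [← lintegral_const_mul' _ _ (gc_ne_top m n)]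
    refine lintegral_congr fun A => ?_
    simp only [Pi.mul_apply]
    ring
  · refine ae_of_all _ fun A => ?_
    exact ENNReal.mul_lt_top (gc_ne_top m n).lt_top (by unfold ge; exact ENNReal.ofReal_lt_top)

lemma gin_ge {m n : ℕ} : gc m n * ∫⁻ A : Fin m → Fin n → ℂ, ge A = 1 := by
  have := lintegral_ge (m := m) (n := n) (fun _ => 1)
  simpa using this

/-! ### linear changes of variables -/

lemma lin_change {E : Type*} [NormedAddCommGroup E] [NormedSpace ℝ E] [FiniteDimensional ℝ E]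
    [MeasurableSpace E] [BorelSpace E] (μ : Measure E) [μ.IsAddHaarMeasure] (L : E ≃ₗ[ℝ] E) :
    ∃ c : ℝ≥0∞, c ≠ 0 ∧ c ≠ ∞ ∧ c = ENNReal.ofReal |(LinearMap.det (L : E →ₗ[ℝ] E))⁻¹| ∧
      ∀ (s : E) (f : E → ℝ≥0∞), ∫⁻ x, f (s + L x) ∂μ = c * ∫⁻ x, f x ∂μ := by
  have hd : LinearMap.det (L : E →ₗ[ℝ] E) ≠ 0 := (LinearEquiv.isUnit_det' L).ne_zero
  refine ⟨ENNReal.ofReal |(LinearMap.det (L : E →ₗ[ℝ] E))⁻¹|, ?_, ENNReal.ofReal_ne_top, rfl,
    fun s f => ?_⟩
  · simp only [ne_eq, ENNReal.ofReal_eq_zero, not_le, abs_pos]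
    exact inv_ne_zero hd
  · have h1 := Measure.map_linearMap_addHaar_eq_smul_addHaar μ hd
    let e := L.toContinuousLinearEquiv.toHomeomorph.toMeasurableEquiv
    have h2 := lintegral_map_equiv (μ := μ) (fun x => f (s + x)) e
    have h3 : Measure.map e μ = ENNReal.ofReal |(LinearMap.det (L : E →ₗ[ℝ] E))⁻¹| • μ := h1
    rw [h3, lintegral_smul_measure, lintegral_add_left_eq_self] at h2
    rw [smul_eq_mul] at h2
    exact h2.symm

/-- right multiplication by a matrix -/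
noncomputable def rmul (m : ℕ) {n : ℕ} (K : Matrix (Fin n) (Fin n) ℂ) :
    (Fin m → Fin n → ℂ) →ₗ[ℝ] (Fin m → Fin n → ℂ) where
  toFun P := Matrix.of P * K
  map_add' P Q := by
    show Matrix.of (P + Q) * K = Matrix.of P * K + Matrix.of Q * K
    rw [← Matrix.add_mul]; rfl
  map_smul' c P := by
    show Matrix.of (c • P) * K = c • (Matrix.of P * K)
    rw [← Matrix.smul_mul]; rfl

/-- left multiplication by a matrix -/
noncomputable def lmul {m : ℕ} (n : ℕ) (K : Matrix (Fin m) (Fin m) ℂ) :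
    (Fin m → Fin n → ℂ) →ₗ[ℝ] (Fin m → Fin n → ℂ) where
  toFun P := K * Matrix.of P
  map_add' P Q := by
    show K * Matrix.of (P + Q) = K * Matrix.of P + K * Matrix.of Q
    rw [← Matrix.mul_add]; rfl
  map_smul' c P := by
    show K * Matrix.of (c • P) = c • (K * Matrix.of P)
    rw [← Matrix.mul_smul]; rfl

lemma rmul_apply {m n : ℕ} (K : Matrix (Fin n) (Fin n) ℂ) (P : Fin m → Fin n → ℂ) :
    rmul m K P = Matrix.of P * K := rfl

lemma lmul_apply {m n : ℕ} (K : Matrix (Fin m) (Fin m) ℂ) (P : Fin m → Fin n → ℂ) :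
    lmul n K P = K * Matrix.of P := rfl

instance isHaar1 (n : ℕ) : (volume : Measure (Fin n → ℂ)).IsAddHaarMeasure := by
  show (Measure.pi fun _ : Fin n => (volume : Measure ℂ)).IsAddHaarMeasure
  infer_instance

instance isHaar2 (m n : ℕ) : (volume : Measure (Fin m → Fin n → ℂ)).IsAddHaarMeasure := by
  have := isHaar1 n
  exact Measure.pi.isAddHaarMeasure (fun _ : Fin m => (volume : Measure (Fin n → ℂ)))

lemma rmul_change (m : ℕ) {n : ℕ} (K : Matrix (Fin n) (Fin n) ℂ) (hK : IsUnit K.det) :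
    ∃ c : ℝ≥0∞, c ≠ 0 ∧ c ≠ ∞ ∧ ∀ (s : Fin m → Fin n → ℂ) (f : (Fin m → Fin n → ℂ) → ℝ≥0∞),
      ∫⁻ P, f (s + rmul m K P) = c * ∫⁻ P, f P := by
  let L : (Fin m → Fin n → ℂ) ≃ₗ[ℝ] (Fin m → Fin n → ℂ) :=
    LinearEquiv.ofLinearMap (rmul m K) (rmul m K⁻¹)
      (LinearMap.ext fun P => by
        show (Matrix.of P * K⁻¹) * K = Matrix.of P
        rw [Matrix.mul_assoc, Matrix.nonsing_inv_mul _ hK, Matrix.mul_one])
      (LinearMap.ext fun P => by
        show (Matrix.of P * K) * K⁻¹ = Matrix.of P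
        rw [Matrix.mul_assoc, Matrix.mul_nonsing_inv _ hK, Matrix.mul_one])
  obtain ⟨c, h0, h1, -, h2⟩ := lin_change (volume : Measure (Fin m → Fin n → ℂ)) L
  exact ⟨c, h0, h1, h2⟩

lemma lmul_change {m : ℕ} (n : ℕ) (K : Matrix (Fin m) (Fin m) ℂ) (hK : IsUnit K.det) :
    ∃ c : ℝ≥0∞, c ≠ 0 ∧ c ≠ ∞ ∧ ∀ (s : Fin m → Fin n → ℂ) (f : (Fin m → Fin n → ℂ) → ℝ≥0∞),
      ∫⁻ P, f (s + lmul n K P) = c * ∫⁻ P, f P := by
  let L : (Fin m → Fin n → ℂ) ≃ₗ[ℝ] (Fin m → Fin n → ℂ) :=
    LinearEquiv.ofLinearMap (lmul n K) (lmul n K⁻¹)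
      (LinearMap.ext fun P => by
        show K * (K⁻¹ * Matrix.of P) = Matrix.of P
        rw [← Matrix.mul_assoc, Matrix.mul_nonsing_inv _ hK, Matrix.one_mul])
      (LinearMap.ext fun P => by
        show K⁻¹ * (K * Matrix.of P) = Matrix.of P
        rw [← Matrix.mul_assoc, Matrix.nonsing_inv_mul _ hK, Matrix.one_mul])
  obtain ⟨c, h0, h1, -, h2⟩ := lin_change (volume : Measure (Fin m → Fin n → ℂ)) L
  exact ⟨c, h0, h1, h2⟩

/-! ### unitary matrices -/

lemma exists_unitary {n : ℕ} (x : Fin (n + 1) → ℂ) (hx : nv x = 1) :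
    ∃ V : Matrix (Fin (n + 1)) (Fin (n + 1)) ℂ, V ∈ Matrix.unitaryGroup (Fin (n + 1)) ℂ ∧
      ∀ i, V i 0 = x i := by
  have hcard : Module.finrank ℂ (EuclideanSpace ℂ (Fin (n + 1))) = Fintype.card (Fin (n + 1)) := by
    simp
  have hn : ‖(WithLp.toLp 2 x : EuclideanSpace ℂ (Fin (n + 1)))‖ = 1 := by
    rw [EuclideanSpace.norm_eq]
    unfold nv at hx
    simp [hx]
  have hv : Orthonormal ℂ (({0} : Set (Fin (n + 1))).domRestrict
      (fun _ => (WithLp.toLp 2 x : EuclideanSpace ℂ (Fin (n + 1))))) := by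
    constructor
    · intro i
      exact hn
    · intro i j hij
      exact absurd (Subsingleton.elim i j) hij
  obtain ⟨b, hb⟩ := hv.exists_orthonormalBasis_extension_of_card_eq hcard
  refine ⟨Matrix.of fun i j => (b j).ofLp i, ?_, fun i => ?_⟩
  · rw [Matrix.mem_unitaryGroup_iff']
    ext j k
    have h1 := (orthonormal_iff_ite.1 b.orthonormal) j k
    rw [PiLp.inner_apply] at h1
    rw [Matrix.mul_apply, Matrix.one_apply, ← h1]
    refine Finset.sum_congr rfl fun i _ => ?_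
    simp [Matrix.star_apply, mul_comm]
  · have := hb 0 (by simp)
    simp [this]

lemma nsq_eq_trace {m n : ℕ} (A : Matrix (Fin m) (Fin n) ℂ) :
    ((nsq (fun i j => A i j) : ℝ) : ℂ) = (A * A.conjTranspose).trace := by
  unfold nsq
  rw [Matrix.trace]
  push_cast
  refine Finset.sum_congr rfl fun i _ => ?_
  rw [Matrix.diag_apply, Matrix.mul_apply]
  refine Finset.sum_congr rfl fun j _ => ?_
  rw [Matrix.conjTranspose_apply, ← Complex.mul_conj']
  rfl

lemma nsq_mul_unitary {m n : ℕ} (A : Matrix (Fin m) (Fin n) ℂ) {V : Matrix (Fin n) (Fin n) ℂ}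
    (hV : V ∈ Matrix.unitaryGroup (Fin n) ℂ) :
    nsq (fun i j => (A * V) i j) = nsq (fun i j => A i j) := by
  have h := Matrix.mem_unitaryGroup_iff.1 hV
  have h2 : ((nsq (fun i j => (A * V) i j) : ℝ) : ℂ) = ((nsq (fun i j => A i j) : ℝ) : ℂ) := by
    rw [nsq_eq_trace, nsq_eq_trace, Matrix.conjTranspose_mul, Matrix.mul_assoc,
      ← Matrix.mul_assoc V, ← Matrix.star_eq_conjTranspose V, h, Matrix.one_mul]
  exact_mod_cast h2

lemma nsq_unitary_mul {m n : ℕ} (A : Matrix (Fin m) (Fin n) ℂ) {V : Matrix (Fin m) (Fin m) ℂ}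
    (hV : V ∈ Matrix.unitaryGroup (Fin m) ℂ) :
    nsq (fun i j => (V * A) i j) = nsq (fun i j => A i j) := by
  have h := Matrix.mem_unitaryGroup_iff'.1 hV
  have h2 : ((nsq (fun i j => (V * A) i j) : ℝ) : ℂ) = ((nsq (fun i j => A i j) : ℝ) : ℂ) := by
    rw [nsq_eq_trace, nsq_eq_trace, Matrix.conjTranspose_mul, Matrix.mul_assoc,
      Matrix.trace_mul_comm, Matrix.mul_assoc, Matrix.mul_assoc,
      ← Matrix.star_eq_conjTranspose V, h, Matrix.mul_one]
  exact_mod_cast h2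

lemma norm_det_unitary {n : ℕ} {V : Matrix (Fin n) (Fin n) ℂ}
    (hV : V ∈ Matrix.unitaryGroup (Fin n) ℂ) : ‖V.det‖ = 1 :=
  CStarRing.norm_of_mem_unitary (Matrix.det_of_mem_unitary hV)

lemma isUnit_det_unitary {n : ℕ} {V : Matrix (Fin n) (Fin n) ℂ}
    (hV : V ∈ Matrix.unitaryGroup (Fin n) ℂ) : IsUnit V.det := by
  rw [isUnit_iff_ne_zero, ← norm_ne_zero_iff, norm_det_unitary hV]
  norm_num

/-- unitary invariance of the Gaussian law -/
lemma gin_unitary {m n : ℕ} {V : Matrix (Fin m) (Fin m) ℂ}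
    (hV : V ∈ Matrix.unitaryGroup (Fin m) ℂ) (f : (Fin m → Fin n → ℂ) → ℝ≥0∞) :
    ∫⁻ P, f (lmul n V P) ∂(gin m n) = ∫⁻ P, f P ∂(gin m n) := by
  obtain ⟨c, h0, h1, h2⟩ := lmul_change n V (isUnit_det_unitary hV)
  have hge : ∀ P : Fin m → Fin n → ℂ, ge (lmul n V P) = ge P := by
    intro P
    unfold ge
    have := nsq_unitary_mul (Matrix.of P) hV
    have h3 : nsq (lmul n V P) = nsq P := this
    rw [h3]
  have hc : c = 1 := by
    have h3 := h2 0 (ge : (Fin m → Fin n → ℂ) → ℝ≥0∞)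
    simp only [zero_add, hge] at h3
    have h4 := gin_ge (m := m) (n := n)
    have h5 : gc m n * ∫⁻ P : Fin m → Fin n → ℂ, ge P = c * (gc m n * ∫⁻ P : Fin m → Fin n → ℂ, ge P) := by
      conv_lhs => rw [h3]
      ring
    rw [h4, mul_one] at h5
    exact h5.symm
  rw [← lintegral_ge, ← lintegral_ge]
  congr 1
  have h3 := h2 0 (fun P => f P * ge P)
  simp only [zero_add, hge, hc, one_mul] at h3
  exact h3

end Pool.Agent.helper28.SG
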