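import Pool.Agent.helper28.SG.Rad
import Pool.Agent.helper84.SG.Defs2

/-!
# Determinant identities for the deflation of pencils
-/

set_option autoImplicit false
open MeasureTheory ProbabilityTheory Filter Topology
open scoped NNReal ENNReal

namespace Pool.Agent.helper28.SG

open Pool.Agent.helper84.SG Polynomial

section generic

variable {R : Type*} {N : ℕ}

/-- column `c` followed by the columns `P` -/
def mkR (c : Fin (N + 1) → R) (P : Fin (N + 1) → Fin N → R) :
    Matrix (Fin (N + 1)) (Fin (N + 1)) R := Matrix.of fun i => Fin.cons (c i) (P i)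

@[simp] lemma mkR_zero (c : Fin (N + 1) → R) (P : Fin (N + 1) → Fin N → R) (i : Fin (N + 1)) :
    mkR c P i 0 = c i := rfl

@[simp] lemma mkR_succ (c : Fin (N + 1) → R) (P : Fin (N + 1) → Fin N → R) (i : Fin (N + 1))
    (j : Fin N) : mkR c P i j.succ = P i j := rfl

lemma mkR_ext {M : Matrix (Fin (N + 1)) (Fin (N + 1)) R} {c : Fin (N + 1) → R}
    {P : Fin (N + 1) → Fin N → R} (h0 : ∀ i, M i 0 = c i) (h1 : ∀ i j, M i j.succ = P i j) :
    M = mkR c P := by
  ext i j
  refine Fin.cases ?_ (fun j => ?_) j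
  · exact h0 i
  · exact h1 i j

variable [CommRing R]

lemma det_mkR_smul (a : R) (c : Fin (N + 1) → R) (P : Fin (N + 1) → Fin N → R) :
    (mkR (fun i => a * c i) P).det = a * (mkR c P).det := by
  have h := Matrix.det_mul_row (Fin.cons a (fun _ => 1) : Fin (N + 1) → R) (mkR c P)
  rw [Fin.prod_univ_succ] at h
  simp only [Fin.cons_zero, Fin.cons_succ, Finset.prod_const_one, mul_one] at h
  rw [← h]
  congr 1
  symm
  refine mkR_ext (fun i => ?_) (fun i j => ?_) <;> simp

lemma det_col0 (M : Matrix (Fin (N + 1)) (Fin (N + 1)) R) (h : ∀ i : Fin N, M i.succ 0 = 0) :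
    M.det = M 0 0 * (M.submatrix Fin.succ Fin.succ).det := by
  rw [Matrix.det_succ_column_zero, Fin.sum_univ_succ]
  simp [h]

lemma det_row0 (M : Matrix (Fin (N + 1)) (Fin (N + 1)) R) (h : ∀ i : Fin N, M 0 i.succ = 0) :
    M.det = M 0 0 * (M.submatrix Fin.succ Fin.succ).det := by
  rw [← Matrix.det_transpose, det_col0 M.transpose h, ← Matrix.det_transpose (M.submatrix _ _)]
  rfl

lemma det_mkR_mul (c : Fin (N + 1) → R) (P : Matrix (Fin (N + 1)) (Fin N) R)
    (K : Matrix (Fin N) (Fin N) R) :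
    (mkR c (fun i j => (P * K) i j)).det = (mkR c (fun i j => P i j)).det * K.det := by
  let D : Matrix (Fin (N + 1)) (Fin (N + 1)) R :=
    Matrix.of (Fin.cons (Fin.cons 1 (fun _ => 0)) (fun j => Fin.cons 0 (K j)))
  have hD : D.det = K.det := by
    rw [det_col0 D (fun i => rfl)]
    have h1 : D 0 0 = 1 := rfl
    rw [h1, one_mul]
    rfl
  have h2 : mkR c (fun i j => (P * K) i j) = mkR c (fun i j => P i j) * D := by
    symm
    refine mkR_ext (fun i => ?_) (fun i j => ?_)
    · rw [Matrix.mul_apply, Fin.sum_univ_succ]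
      simp [D]
    · rw [Matrix.mul_apply, Fin.sum_univ_succ]
      simp [D, Matrix.mul_apply]
  rw [h2, Matrix.det_mul, hD]

/-- the matrix `V₂₂ - y V₁₂` -/
def KK (y : Fin N → R) (V : Matrix (Fin (N + 1)) (Fin (N + 1)) R) : Matrix (Fin N) (Fin N) R :=
  Matrix.of fun j k => V j.succ k.succ - y j * V 0 k.succ

lemma det_KK (y : Fin N → R) (V : Matrix (Fin (N + 1)) (Fin (N + 1)) R)
    (h : ∀ j, V j.succ 0 = y j * V 0 0) : V.det = V 0 0 * (KK y V).det := by
  let S : Matrix (Fin (N + 1)) (Fin (N + 1)) R :=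
    Matrix.of (Fin.cons (Fin.cons 1 (fun _ => 0))
      (fun j => Fin.cons (- y j) (fun k => if j = k then 1 else 0)))
  have hS : S.det = 1 := by
    rw [det_row0 S (fun i => rfl)]
    have h1 : S 0 0 = 1 := rfl
    have h2 : S.submatrix Fin.succ Fin.succ = 1 := by
      ext i j
      simp [S, Matrix.one_apply]
    rw [h1, h2, Matrix.det_one, one_mul]
  have h1 : (S * V).det = V.det := by rw [Matrix.det_mul, hS, one_mul]
  rw [← h1, det_col0]
  · congr 1
    · rw [Matrix.mul_apply, Fin.sum_univ_succ]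
      simp [S]
    · congr 1
      ext i j
      rw [Matrix.submatrix_apply, Matrix.mul_apply, Fin.sum_univ_succ]
      simp [S, KK]
      ring
  · intro i
    rw [Matrix.mul_apply, Fin.sum_univ_succ]
    simp [S, h]

lemma mkR_mul_V (y : Fin N → R) (V : Matrix (Fin (N + 1)) (Fin (N + 1)) R)
    (h : ∀ j, V j.succ 0 = y j * V 0 0) (c : Fin (N + 1) → R) (P : Fin (N + 1) → Fin N → R) :
    mkR (fun i => c i - ∑ j, P i j * y j) P * V =
      mkR (fun i => V 0 0 * c i) (fun i k => c i * V 0 k.succ + (Matrix.of P * KK y V) i k) := by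
  refine mkR_ext (fun i => ?_) (fun i k => ?_)
  · rw [Matrix.mul_apply, Fin.sum_univ_succ]
    simp only [mkR_zero, mkR_succ, h]
    rw [sub_mul, Finset.sum_mul]
    have : ∀ j, P i j * y j * V 0 0 = P i j * (y j * V 0 0) := fun j => by ring
    simp only [this]
    ring
  · rw [Matrix.mul_apply, Fin.sum_univ_succ, Matrix.mul_apply]
    simp only [mkR_zero, mkR_succ, KK, Matrix.of_apply]
    rw [sub_mul, Finset.sum_mul]
    have : ∀ j, P i j * (V j.succ k.succ - y j * V 0 k.succ) =
      P i j * V j.succ k.succ - P i j * y j * V 0 k.succ := fun j => by ring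
    simp only [this, Finset.sum_sub_distrib]
    ring

end generic

variable {N : ℕ}

/-- `det [β | X Q - P]` -/
noncomputable def cpoly (β : Fin (N + 1) → ℂ) (P Q : Fin (N + 1) → Fin N → ℂ) : ℂ[X] :=
  (mkR (fun i => C (β i)) (fun i j => X * C (Q i j) - C (P i j))).det

lemma of_mk (c : Fin (N + 1) → ℂ) (P : Fin (N + 1) → Fin N → ℂ) : Matrix.of (mk c P) = mkR c P :=
  rfl

lemma ppoly_mul (A B V : Matrix (Fin (N + 1)) (Fin (N + 1)) ℂ) :
    ppoly ((fun i j => (A * V) i j), (fun i j => (B * V) i j)) =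
      ppoly ((fun i j => A i j), (fun i j => B i j)) * C V.det := by
  unfold ppoly
  rw [RingHom.map_det, ← Matrix.det_mul]
  congr 1
  have h1 : (Matrix.of fun i j => (B * V) i j).map C = B.map C * V.map C := by
    rw [← Matrix.map_mul]; rfl
  have h2 : (Matrix.of fun i j => (A * V) i j).map C = A.map C * V.map C := by
    rw [← Matrix.map_mul]; rfl
  rw [h1, h2]
  have h3 : (C.mapMatrix V : Matrix _ _ ℂ[X]) = V.map C := rfl
  rw [h3, Matrix.sub_mul, Matrix.smul_mul]
  rfl

lemma ppoly_mk (z : ℂ) (β : Fin (N + 1) → ℂ) (P Q : Fin (N + 1) → Fin N → ℂ) :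
    ppoly (mk (fun i => z * β i) P, mk β Q) = (X - C z) * cpoly β P Q := by
  unfold ppoly cpoly
  rw [← det_mkR_smul]
  congr 1
  refine mkR_ext (fun i => ?_) (fun i j => ?_)
  · simp [of_mk]
    ring
  · simp [of_mk]

lemma cpoly_smul (a : ℂ) (β : Fin (N + 1) → ℂ) (P Q : Fin (N + 1) → Fin N → ℂ) :
    cpoly (fun i => a * β i) P Q = C a * cpoly β P Q := by
  unfold cpoly
  rw [← det_mkR_smul]
  congr 2
  funext i
  rw [C_mul]

lemma cpoly_lmul (V : Matrix (Fin (N + 1)) (Fin (N + 1)) ℂ) (r : ℂ)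
    (P Q : Fin (N + 1) → Fin N → ℂ) :
    cpoly (fun i => r * V i 0) (lmul N V P) (lmul N V Q) =
      C V.det * (C r * ppoly ((fun i : Fin N => P i.succ), (fun i : Fin N => Q i.succ))) := by
  unfold cpoly
  have h1 : mkR (fun i => C (r * V i 0)) (fun i j => X * C (lmul N V Q i j) - C (lmul N V P i j)) =
      V.map C * mkR (Fin.cons (C r) (fun _ => 0)) (fun i j => X * C (Q i j) - C (P i j)) := by
    symm
    refine mkR_ext (fun i => ?_) (fun i j => ?_)
    · rw [Matrix.mul_apply, Fin.sum_univ_succ]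
      simp
      ring
    · rw [Matrix.mul_apply]
      simp only [mkR_succ, Matrix.map_apply]
      have e1 : ∀ (P : Fin (N + 1) → Fin N → ℂ), lmul N V P i j = ∑ l, V i l * P l j := by
        intro P
        show (V * Matrix.of P) i j = _
        rw [Matrix.mul_apply]
        rfl
      rw [e1, e1, map_sum, map_sum, Finset.mul_sum, ← Finset.sum_sub_distrib]
      refine Finset.sum_congr rfl fun l _ => ?_
      rw [C_mul, C_mul]
      ring
  rw [h1, Matrix.det_mul, det_col0 (mkR (Fin.cons (C r) (fun _ => 0)) _) (fun i => rfl)]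
  have h2 : (V.map C : Matrix _ _ ℂ[X]).det = C V.det := (RingHom.map_det C V).symm
  rw [h2]
  rfl

lemma det_lmul (V : Matrix (Fin (N + 1)) (Fin (N + 1)) ℂ) (r z : ℂ)
    (P Q : Fin (N + 1) → Fin N → ℂ) :
    (Matrix.of (mk (fun i => r * V i 0) (z • lmul N V Q - lmul N V P))).det =
      V.det * (r * (z • Matrix.of (fun i : Fin N => Q i.succ) - (1 : ℂ) •
        Matrix.of (fun i : Fin N => P i.succ)).det) := by
  rw [of_mk]
  have h1 : mkR (fun i => r * V i 0) (z • lmul N V Q - lmul N V P) =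
      V * mkR (Fin.cons r (fun _ => 0)) (z • Q - P) := by
    symm
    refine mkR_ext (fun i => ?_) (fun i j => ?_)
    · rw [Matrix.mul_apply, Fin.sum_univ_succ]
      simp
      ring
    · rw [Matrix.mul_apply]
      simp only [mkR_succ]
      have e1 : ∀ (P : Fin (N + 1) → Fin N → ℂ), lmul N V P i j = ∑ l, V i l * P l j := by
        intro P
        show (V * Matrix.of P) i j = _
        rw [Matrix.mul_apply]
        rfl
      simp only [Pi.sub_apply, Pi.smul_apply, smul_eq_mul]
      rw [e1, e1, Finset.mul_sum, ← Finset.sum_sub_distrib]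
      refine Finset.sum_congr rfl fun l _ => ?_
      ring
  rw [h1, Matrix.det_mul, det_col0 (mkR (Fin.cons r (fun _ => 0)) _) (fun i => rfl)]
  congr 1
  rw [mkR_zero, Fin.cons_zero]
  congr 2
  ext i j
  simp

lemma nsq_mk (c : Fin (N + 1) → ℂ) (P : Fin (N + 1) → Fin N → ℂ) :
    nsq (mk c P) = nv c + nsq P := by
  unfold nsq nv
  rw [← Finset.sum_add_distrib]
  refine Finset.sum_congr rfl fun i _ => ?_
  rw [Fin.sum_univ_succ]
  rfl

lemma nv_mul (z : ℂ) (β : Fin N → ℂ) : nv (fun i => z * β i) = ‖z‖ ^ 2 * nv β := by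
  unfold nv
  rw [Finset.mul_sum]
  refine Finset.sum_congr rfl fun i _ => ?_
  rw [norm_mul, mul_pow]

end Pool.Agent.helper28.SG
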