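import Pool.Agent.helper28.SG.Mat

/-!
# Measurability of the coefficients
-/

set_option autoImplicit false
open MeasureTheory ProbabilityTheory Filter Topology
open scoped NNReal ENNReal

namespace Pool.Agent.helper28.SG

open Pool.Agent.helper84.SG Polynomial

section MP

variable {α : Type*} [MeasurableSpace α]

/-- all coefficients are measurable -/
def MP (f : α → ℂ[X]) : Prop := ∀ k, Measurable fun a => (f a).coeff k

lemma MP.const (p : ℂ[X]) : MP fun _ : α => p := fun _ => measurable_const

lemma MP.C {g : α → ℂ} (hg : Measurable g) : MP fun a => C (g a) := by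
  intro k
  simp only [coeff_C]
  split_ifs
  · exact hg
  · exact measurable_const

lemma MP.add {f g : α → ℂ[X]} (hf : MP f) (hg : MP g) : MP fun a => f a + g a := by
  intro k
  simp only [coeff_add]
  exact (hf k).add (hg k)

lemma MP.sub {f g : α → ℂ[X]} (hf : MP f) (hg : MP g) : MP fun a => f a - g a := by
  intro k
  simp only [coeff_sub]
  exact (hf k).sub (hg k)

lemma MP.mul {f g : α → ℂ[X]} (hf : MP f) (hg : MP g) : MP fun a => f a * g a := by
  intro k
  simp only [coeff_mul]
  exact Finset.measurable_fun_sum _ fun p _ => (hf _).mul (hg _)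

lemma MP.sum {ι : Type*} (s : Finset ι) {f : ι → α → ℂ[X]} (hf : ∀ i ∈ s, MP (f i)) :
    MP fun a => ∑ i ∈ s, f i a := by
  intro k
  simp only [finsetSum_coeff]
  exact Finset.measurable_fun_sum _ fun i hi => hf i hi k

lemma MP.prod {ι : Type*} (s : Finset ι) {f : ι → α → ℂ[X]} (hf : ∀ i ∈ s, MP (f i)) :
    MP fun a => ∏ i ∈ s, f i a := by
  classical
  induction s using Finset.induction_on with
  | empty => simp only [Finset.prod_empty]; exact MP.const 1
  | insert i s hi ih =>
    simp only [Finset.prod_insert hi]
    exact (hf i (Finset.mem_insert_self _ _)).mul (ih fun j hj => hf j (Finset.mem_insert_of_mem hj))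

lemma MP.det {n : ℕ} {f : α → Matrix (Fin n) (Fin n) ℂ[X]} (hf : ∀ i j, MP fun a => f a i j) :
    MP fun a => (f a).det := by
  simp only [Matrix.det_apply']
  refine MP.sum _ fun σ _ => ?_
  exact (MP.const _).mul (MP.prod _ fun i _ => hf _ _)

lemma MP.pcoef {f : α → ℂ[X]} (hf : MP f) (n : ℕ) : Measurable fun a => pcoef n (f a) := by
  refine measurable_pi_lambda _ fun k => ?_
  exact hf k

lemma MP.ppoly {n : ℕ} {A B : α → Fin n → Fin n → ℂ} (hA : Measurable A) (hB : Measurable B) :
    MP fun a => ppoly (A a, B a) := by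
  unfold Pool.Agent.helper84.SG.ppoly
  refine MP.det fun i j => ?_
  have h1 : ∀ a, ((X : ℂ[X]) • (Matrix.of (B a)).map Polynomial.C -
      (Matrix.of (A a)).map Polynomial.C) i j =
      X * Polynomial.C (B a i j) - Polynomial.C (A a i j) := fun a => rfl
  simp only [h1]
  exact ((MP.const X).mul (MP.C (by fun_prop))).sub (MP.C (by fun_prop))

lemma MP.cpoly {n : ℕ} {b : α → Fin (n + 1) → ℂ} {A B : α → Fin (n + 1) → Fin n → ℂ}
    (hb : Measurable b) (hA : Measurable A) (hB : Measurable B) :
    MP fun a => cpoly (b a) (A a) (B a) := by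
  unfold Pool.Agent.helper28.SG.cpoly
  refine MP.det fun i j => ?_
  refine Fin.cases ?_ (fun j => ?_) j
  · simp only [mkR_zero]
    exact MP.C (by fun_prop)
  · simp only [mkR_succ]
    exact ((MP.const X).mul (MP.C (by fun_prop))).sub (MP.C (by fun_prop))

lemma measurable_det {n : ℕ} {A : α → Fin n → Fin n → ℂ} (hA : Measurable A) :
    Measurable fun a => (Matrix.of (A a)).det := by
  have h : Measurable fun M : Fin n → Fin n → ℂ => (Matrix.of M).det := by
    have : Continuous fun M : Fin n → Fin n → ℂ => (Matrix.of M).det :=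
      Continuous.matrix_det continuous_id
    exact this.measurable
  exact h.comp hA

lemma measurable_mk {n : ℕ} {b : α → Fin (n + 1) → ℂ} {A : α → Fin (n + 1) → Fin n → ℂ}
    (hb : Measurable b) (hA : Measurable A) : Measurable fun a => mk (b a) (A a) := by
  refine measurable_pi_lambda _ fun i => measurable_pi_lambda _ fun j => ?_
  refine Fin.cases ?_ (fun j => ?_) j
  · show Measurable fun a => b a i
    fun_prop
  · show Measurable fun a => A a i j
    fun_prop

lemma measurable_pf {n : ℕ} {A B : α → Fin n → Fin n → ℂ} {e : α → ℂ × ℂ} (hA : Measurable A)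
    (hB : Measurable B) (he : Measurable e) : Measurable fun a => pf (A a, B a) (e a) := by
  unfold pf
  have h1 : ∀ a, (e a).1 • Matrix.of (B a) - (e a).2 • Matrix.of (A a) =
      Matrix.of ((e a).1 • B a - (e a).2 • A a) := fun a => rfl
  simp only [h1]
  refine measurable_det ?_
  fun_prop

end MP

end Pool.Agent.helper28.SG
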