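import Pool.Agent.helper28.SG.Base

/-!
# Radial integrals and scalings
-/

set_option autoImplicit false
open MeasureTheory ProbabilityTheory Filter Topology
open scoped NNReal ENNReal

namespace Pool.Agent.helper28.SG

open Pool.Agent.helper84.SG Set

lemma lintegral_norm {E : Type*} [NormedAddCommGroup E] [NormedSpace ℝ E] [Nontrivial E]
    [FiniteDimensional ℝ E] [MeasurableSpace E] [BorelSpace E] (μ : Measure E)
    [μ.IsAddHaarMeasure] (h : ℝ → ℝ≥0∞) (hh : Measurable h) :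
    ∫⁻ x, h ‖x‖ ∂μ = μ.toSphere univ *
      ∫⁻ y in Ioi (0 : ℝ), ENNReal.ofReal (y ^ (Module.finrank ℝ E - 1)) * h y := by
  have h1 : ∫⁻ x, h ‖x‖ ∂μ = ∫⁻ x : ({(0)}ᶜ : Set E), h ‖x.1‖ ∂(μ.comap (↑)) := by
    rw [lintegral_subtype_comap (measurableSet_singleton _).compl fun x => h ‖x‖,
      restrict_compl_singleton]
  have h2 := μ.measurePreserving_homeomorphUnitSphereProd.lintegral_comp_emb
    (Homeomorph.measurableEmbedding _) (h ∘ Subtype.val ∘ Prod.snd)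
  have h3 : ∫⁻ x : ({(0)}ᶜ : Set E), h ‖x.1‖ ∂(μ.comap (↑)) =
      ∫⁻ x, h x.2 ∂μ.toSphere.prod (.volumeIoiPow (Module.finrank ℝ E - 1)) := by
    rw [show (∫⁻ x, h x.2 ∂μ.toSphere.prod (.volumeIoiPow (Module.finrank ℝ E - 1))) =
      ∫⁻ x, (h ∘ Subtype.val ∘ Prod.snd) x
        ∂μ.toSphere.prod (.volumeIoiPow (Module.finrank ℝ E - 1)) from rfl, ← h2]
    refine lintegral_congr fun x => ?_
    simp
  have hm : Measurable fun x : Ioi (0 : ℝ) => h x := hh.comp measurable_subtype_coe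
  have hm2 : Measurable fun x : Metric.sphere (0 : E) 1 × Ioi (0 : ℝ) => h x.2 :=
    hm.comp measurable_snd
  rw [h1, h3, lintegral_prod _ hm2.aemeasurable]
  simp only [lintegral_const]
  rw [mul_comm]
  congr 1
  rw [Measure.volumeIoiPow, lintegral_withDensity_eq_lintegral_mul _ _ hm]
  · have h4 := lintegral_subtype_comap (μ := (volume : Measure ℝ)) (s := Ioi (0 : ℝ))
      measurableSet_Ioi fun a => ENNReal.ofReal (a ^ (Module.finrank ℝ E - 1)) * h a
    exact h4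
  · fun_prop

lemma radial (N : ℕ) : ∃ C : ℝ≥0∞, ∀ h : ℝ → ℝ≥0∞, Measurable h →
    ∫⁻ β : Fin (N + 1) → ℂ, h (Real.sqrt (nv β)) =
      C * ∫⁻ b : ℂ, h ‖b‖ * ENNReal.ofReal (‖b‖ ^ (2 * N)) := by
  let E := EuclideanSpace ℂ (Fin (N + 1))
  let e : (Fin (N + 1) → ℂ) ≃L[ℝ] E :=
    (PiLp.continuousLinearEquiv 2 ℝ (fun _ : Fin (N + 1) => ℂ)).symm
  let μ : Measure E := (volume : Measure (Fin (N + 1) → ℂ)).map e
  have hμ : μ.IsAddHaarMeasure := e.isAddHaarMeasure_map _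
  have hfin : Module.finrank ℝ E = 2 * N + 2 := by
    have h1 : Module.finrank ℝ E = Module.finrank ℝ (Fin (N + 1) → ℂ) := e.symm.toLinearEquiv.finrank_eq
    rw [h1, Module.finrank_pi_fintype]
    simp
    ring
  have hK : (volume : Measure ℂ).toSphere univ ≠ 0 := by
    rw [Ne, Measure.measure_univ_eq_zero]
    exact Measure.toSphere_ne_zero _
  have hK' : (volume : Measure ℂ).toSphere univ ≠ ∞ := measure_ne_top _ _
  refine ⟨μ.toSphere univ * ((volume : Measure ℂ).toSphere univ)⁻¹, fun h hh => ?_⟩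
  have h1 := lintegral_norm μ h hh
  have h2 := lintegral_norm (volume : Measure ℂ) (fun r => h r * ENNReal.ofReal (r ^ (2 * N)))
    (hh.mul (by fun_prop))
  have h3 : ∫⁻ x, h ‖x‖ ∂μ = ∫⁻ β : Fin (N + 1) → ℂ, h (Real.sqrt (nv β)) := by
    have := lintegral_map_equiv (μ := (volume : Measure (Fin (N + 1) → ℂ))) (fun x : E => h ‖x‖)
      e.toHomeomorph.toMeasurableEquiv
    rw [show μ = Measure.map e.toHomeomorph.toMeasurableEquiv volume from rfl, this]
    refine lintegral_congr fun β => ?_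
    congr 1
    show ‖(WithLp.toLp 2 β : E)‖ = _
    rw [EuclideanSpace.norm_eq]
    rfl
  rw [← h3, h1, hfin, h2, mul_assoc, ← mul_assoc (_⁻¹), ENNReal.inv_mul_cancel hK hK', one_mul,
    Complex.finrank_real_complex]
  congr 1
  refine setLIntegral_congr_fun measurableSet_Ioi fun y hy => ?_
  simp only [show 2 * N + 2 - 1 = 2 * N + 1 by omega, show 2 - 1 = 1 from rfl, pow_one]
  have hy0 : (0 : ℝ) ≤ y := le_of_lt hy
  rw [pow_succ, ENNReal.ofReal_mul (by positivity)]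
  ring

/-- scaling of vectors -/
lemma scale_change (n : ℕ) {ρ : ℝ} (hρ : 0 < ρ) (f : (Fin n → ℂ) → ℝ≥0∞) :
    ∫⁻ β : Fin n → ℂ, f (ρ⁻¹ • β) = ENNReal.ofReal (ρ ^ (Module.finrank ℝ (Fin n → ℂ))) * ∫⁻ β, f β := by
  have h1 := Measure.map_addHaar_smul (volume : Measure (Fin n → ℂ)) (inv_ne_zero hρ.ne')
  have h2 := lintegral_map_equiv (μ := (volume : Measure (Fin n → ℂ))) f
    (Homeomorph.smulOfNeZero ρ⁻¹ (inv_ne_zero hρ.ne')).toMeasurableEquiv
  have h3 : Measure.map (Homeomorph.smulOfNeZero ρ⁻¹ (inv_ne_zero hρ.ne')).toMeasurableEquiv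
      (volume : Measure (Fin n → ℂ)) = Measure.map (ρ⁻¹ • ·) volume := rfl
  rw [h3, h1, lintegral_smul_measure, smul_eq_mul] at h2
  rw [show (∫⁻ β : Fin n → ℂ, f (ρ⁻¹ • β)) = _ from h2.symm]
  congr 2
  rw [inv_pow, inv_inv, abs_of_pos (by positivity)]

/-- multiplication by a complex number -/
lemma cmul_change {b : ℂ} (hb : b ≠ 0) (f : ℂ → ℝ≥0∞) :
    ∫⁻ z : ℂ, ENNReal.ofReal (‖b‖ ^ 2) * f (b * z) = ∫⁻ a, f a := by
  let L : ℂ ≃ₗ[ℝ] ℂ := (LinearEquiv.smulOfNeZero ℂ ℂ b hb).restrictScalars ℝ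
  obtain ⟨c, h0, h1, h2, h3⟩ := lin_change (volume : Measure ℂ) L
  have hdet : LinearMap.det (L : ℂ →ₗ[ℝ] ℂ) = ‖b‖ ^ 2 := by
    have e1 : (L : ℂ →ₗ[ℝ] ℂ) = Algebra.lmul ℝ ℂ b := by
      ext z; simp [L]
    rw [e1, ← Algebra.norm_apply, Algebra.norm_complex_apply, Complex.normSq_eq_norm_sq]
  have h4 := h3 0 f
  simp only [zero_add] at h4
  have h5 : ∀ z, L z = b * z := fun z => rfl
  simp only [h5] at h4
  rw [lintegral_const_mul' _ _ ENNReal.ofReal_ne_top, h4, ← mul_assoc, h2, hdet,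
    ← ENNReal.ofReal_mul (by positivity)]
  have hb' : (0 : ℝ) < ‖b‖ ^ 2 := by positivity
  rw [abs_of_pos (by positivity), mul_inv_cancel₀ hb'.ne', ENNReal.ofReal_one, one_mul]

end Pool.Agent.helper28.SG
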