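import Pool.Agent.helper28.SG.Meas

/-!
# Deflation, first step: elimination of the eigenvector
-/

set_option autoImplicit false
open MeasureTheory ProbabilityTheory Filter Topology
open scoped NNReal ENNReal

namespace Pool.Agent.helper28.SG

open Pool.Agent.helper84.SG Polynomial

/-- statement of the Kac–Rice formula (module A1) -/
def KacRice (N : ℕ) : Prop :=
  ∀ g : (Fin (N + 1) → Fin (N + 1) → ℂ) × (Fin (N + 1) → Fin (N + 1) → ℂ) → ℝ≥0∞, Measurable g →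
    (N + 1 : ℝ≥0∞) * ∫⁻ M, g M =
      ∫⁻ z : ℂ, ∫⁻ y : Fin N → ℂ, ∫⁻ β : Fin (N + 1) → ℂ, ∫⁻ P : Fin (N + 1) → Fin N → ℂ,
        ∫⁻ Q : Fin (N + 1) → Fin N → ℂ,
          ENNReal.ofReal (‖(Matrix.of (mk β (z • Q - P))).det‖ ^ 2) *
            g (mk (fun i => z * β i - ∑ j, P i j * y j) P, mk (fun i => β i - ∑ j, Q i j * y j) Q)

variable {N : ℕ}

/-- the integrand after the elimination of the eigenvector -/
noncomputable def Gd (Ψ : (Fin (N + 2) → ℂ) → ℝ≥0∞) (z : ℂ) (β : Fin (N + 1) → ℂ)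
    (P Q : Fin (N + 1) → Fin N → ℂ) : ℝ≥0∞ :=
  ENNReal.ofReal (‖(Matrix.of (mk β (z • Q - P))).det‖ ^ 2) *
    (Ψ (pcoef (N + 1) ((X - C z) * cpoly β P Q)) *
      (ENNReal.ofReal (Real.exp (-((1 + ‖z‖ ^ 2) * nv β))) * (ge P * ge Q)))

lemma measurable_Gd {α : Type*} [MeasurableSpace α] {Ψ : (Fin (N + 2) → ℂ) → ℝ≥0∞}
    (hΨ : Measurable Ψ) {z : α → ℂ} {β : α → Fin (N + 1) → ℂ}
    {P Q : α → Fin (N + 1) → Fin N → ℂ} (hz : Measurable z) (hβ : Measurable β)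
    (hP : Measurable P) (hQ : Measurable Q) :
    Measurable fun a => Gd Ψ (z a) (β a) (P a) (Q a) := by
  unfold Gd
  have m1 : Measurable fun a => (Matrix.of (mk (β a) (z a • Q a - P a))).det :=
    measurable_det (measurable_mk (by fun_prop) (by fun_prop))
  have m2 : Measurable fun a => pcoef (N + 1) ((X - C (z a)) * cpoly (β a) (P a) (Q a)) :=
    MP.pcoef (((MP.const X).sub (MP.C hz)).mul (MP.cpoly hβ hP hQ)) _
  have m3 : Measurable fun a => nv (β a) := continuous_nv.measurable.comp hβ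
  have m4 : Measurable fun a => ge (P a) := measurable_ge.comp hP
  have m5 : Measurable fun a => ge (Q a) := measurable_ge.comp hQ
  have m6 := hΨ.comp m2
  have m7 : Measurable fun a => ENNReal.ofReal (Real.exp (-((1 + ‖z a‖ ^ 2) * nv (β a)))) := by
    fun_prop
  exact (ENNReal.measurable_ofReal.comp (m1.norm.pow_const 2)).mul
    (m6.mul (m7.mul (m4.mul m5)))

/-- the integral at `z` -/
noncomputable def Jz (Ψ : (Fin (N + 2) → ℂ) → ℝ≥0∞) (z : ℂ) : ℝ≥0∞ :=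
  ∫⁻ β : Fin (N + 1) → ℂ, ∫⁻ P : Fin (N + 1) → Fin N → ℂ, ∫⁻ Q : Fin (N + 1) → Fin N → ℂ,
    Gd Ψ z β P Q

lemma measurable_Jz {Ψ : (Fin (N + 2) → ℂ) → ℝ≥0∞} (hΨ : Measurable Ψ) :
    Measurable (Jz Ψ) := by
  have h3 : Measurable fun p : ((ℂ × (Fin (N + 1) → ℂ)) × (Fin (N + 1) → Fin N → ℂ)) ×
      (Fin (N + 1) → Fin N → ℂ) => Gd Ψ p.1.1.1 p.1.1.2 p.1.2 p.2 :=
    measurable_Gd hΨ (by fun_prop) (by fun_prop) (by fun_prop) (by fun_prop)
  have h2 : Measurable fun p : (ℂ × (Fin (N + 1) → ℂ)) × (Fin (N + 1) → Fin N → ℂ) =>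
      ∫⁻ Q : Fin (N + 1) → Fin N → ℂ, Gd Ψ p.1.1 p.1.2 p.2 Q := h3.lintegral_prod_right'
  have h1 : Measurable fun p : ℂ × (Fin (N + 1) → ℂ) => ∫⁻ P : Fin (N + 1) → Fin N → ℂ,
      ∫⁻ Q : Fin (N + 1) → Fin N → ℂ, Gd Ψ p.1 p.2 P Q := h2.lintegral_prod_right'
  exact h1.lintegral_prod_right'

/-- constant of the change of variables -/
noncomputable def cY (y : Fin N → ℂ) : ℝ≥0∞ :=
  gc (N + 1) N * ∫⁻ P : Fin (N + 1) → Fin N → ℂ, ge (mk (fun i => -∑ j, P i j * y j) P)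

lemma measurable_cY : Measurable (cY : (Fin N → ℂ) → ℝ≥0∞) := by
  unfold cY
  refine Measurable.const_mul ?_ _
  refine Measurable.lintegral_prod_right' (f := fun p : (Fin N → ℂ) × (Fin (N + 1) → Fin N → ℂ) =>
    ge (mk (fun i => -∑ j, p.2 i j * p.1 j) p.2)) ?_
  refine measurable_ge.comp (measurable_mk ?_ measurable_snd)
  fun_prop

lemma pcoef_mul_C (n : ℕ) (p : ℂ[X]) (u : ℂ) : pcoef n (p * C u) = u • pcoef n p := by
  funext k
  simp [pcoef, mul_comm]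

lemma ge_mk (c : Fin (N + 1) → ℂ) (P : Fin (N + 1) → Fin N → ℂ) :
    ge (mk c P) = ENNReal.ofReal (Real.exp (-nv c)) * ge P := by
  unfold ge
  rw [nsq_mk, neg_add, Real.exp_add, ENNReal.ofReal_mul (by positivity)]

lemma integrand_eq {Ψ : (Fin (N + 2) → ℂ) → ℝ≥0∞}
    (hinv : ∀ (ω : ℂ) (f), ‖ω‖ = 1 → Ψ (ω • f) = Ψ f) {ρ : ℝ} (hρ : 0 < ρ)
    (y : Fin N → ℂ) {V : Matrix (Fin (N + 1)) (Fin (N + 1)) ℂ}
    (hV : V ∈ Matrix.unitaryGroup (Fin (N + 1)) ℂ) (h0 : V 0 0 = ((ρ⁻¹ : ℝ) : ℂ))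
    (h1 : ∀ j, V j.succ 0 = y j * V 0 0) (z : ℂ) (β : Fin (N + 1) → ℂ)
    (P Q : Fin (N + 1) → Fin N → ℂ) :
    ENNReal.ofReal (‖(Matrix.of (mk β (z • Q - P))).det‖ ^ 2) *
      (Ψ (pcoef (N + 1) (ppoly (mk (fun i => z * β i - ∑ j, P i j * y j) P,
        mk (fun i => β i - ∑ j, Q i j * y j) Q))) *
          (ge (mk (fun i => z * β i - ∑ j, P i j * y j) P) *
            ge (mk (fun i => β i - ∑ j, Q i j * y j) Q))) =
      Gd Ψ z (ρ⁻¹ • β) ((fun i k => z * β i * V 0 k.succ) + rmul (N + 1) (KK y V) P)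
        ((fun i k => β i * V 0 k.succ) + rmul (N + 1) (KK y V) Q) := by
  set P' : Fin (N + 1) → Fin N → ℂ :=
    (fun i k => z * β i * V 0 k.succ) + rmul (N + 1) (KK y V) P with hP'
  set Q' : Fin (N + 1) → Fin N → ℂ :=
    (fun i k => β i * V 0 k.succ) + rmul (N + 1) (KK y V) Q with hQ'
  have hb : ∀ i, (ρ⁻¹ • β) i = V 0 0 * β i := fun i => by
    rw [h0]
    simp
  have hA : Matrix.of (mk (fun i => z * β i - ∑ j, P i j * y j) P) * V =
      Matrix.of (mk (fun i => z * (ρ⁻¹ • β) i) P') := by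
    rw [of_mk, mkR_mul_V y V h1 (fun i => z * β i) P, of_mk]
    congr 1
    funext i
    rw [hb]
    ring
  have hB : Matrix.of (mk (fun i => β i - ∑ j, Q i j * y j) Q) * V =
      Matrix.of (mk (ρ⁻¹ • β) Q') := by
    rw [of_mk, mkR_mul_V y V h1 β Q, of_mk]
    congr 1
    funext i
    rw [hb]
  have hgA : ge (mk (fun i => z * β i - ∑ j, P i j * y j) P) =
      ge (mk (fun i => z * (ρ⁻¹ • β) i) P') := by
    have := nsq_mul_unitary (Matrix.of (mk (fun i => z * β i - ∑ j, P i j * y j) P)) hV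
    rw [hA] at this
    unfold ge
    congr 3
    exact this.symm
  have hgB : ge (mk (fun i => β i - ∑ j, Q i j * y j) Q) = ge (mk (ρ⁻¹ • β) Q') := by
    have := nsq_mul_unitary (Matrix.of (mk (fun i => β i - ∑ j, Q i j * y j) Q)) hV
    rw [hB] at this
    unfold ge
    congr 3
    exact this.symm
  have hpp : Ψ (pcoef (N + 1) (ppoly (mk (fun i => z * β i - ∑ j, P i j * y j) P,
        mk (fun i => β i - ∑ j, Q i j * y j) Q))) =
      Ψ (pcoef (N + 1) ((X - C z) * cpoly (ρ⁻¹ • β) P' Q')) := by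
    have := ppoly_mul (Matrix.of (mk (fun i => z * β i - ∑ j, P i j * y j) P))
      (Matrix.of (mk (fun i => β i - ∑ j, Q i j * y j) Q)) V
    rw [hA, hB] at this
    have h2 : ppoly ((mk (fun i => z * (ρ⁻¹ • β) i) P'), (mk (ρ⁻¹ • β) Q')) =
      ppoly (mk (fun i => z * β i - ∑ j, P i j * y j) P,
        mk (fun i => β i - ∑ j, Q i j * y j) Q) * C V.det := this
    rw [ppoly_mk] at h2
    rw [h2, pcoef_mul_C, hinv _ _ (norm_det_unitary hV)]
  have hKn : ‖(KK y V).det‖ = ρ := by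
    have h3 := det_KK y V h1
    have h4 := norm_det_unitary hV
    rw [h3, norm_mul, h0, Complex.norm_real, Real.norm_of_nonneg (by positivity)] at h4
    field_simp at h4
    exact h4
  have hdet : ‖(Matrix.of (mk (ρ⁻¹ • β) (z • Q' - P'))).det‖ =
      ‖(Matrix.of (mk β (z • Q - P))).det‖ := by
    have h3 : z • Q' - P' = fun i j => (Matrix.of (z • Q - P) * KK y V) i j := by
      funext i k
      have e1 : Q' i k = β i * V 0 k.succ + ∑ l, Q i l * KK y V l k := by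
        rw [hQ']
        rfl
      have e2 : P' i k = z * β i * V 0 k.succ + ∑ l, P i l * KK y V l k := by
        rw [hP']
        rfl
      show z * Q' i k - P' i k = _
      rw [e1, e2, Matrix.mul_apply]
      simp only [Matrix.of_apply, Pi.sub_apply, Pi.smul_apply, smul_eq_mul, sub_mul,
        Finset.sum_sub_distrib, mul_assoc, ← Finset.mul_sum]
      ring
    have h4 : (ρ⁻¹ • β) = fun i => V 0 0 * β i := funext hb
    rw [h3, h4, of_mk, det_mkR_smul, det_mkR_mul, norm_mul, norm_mul, hKn, h0, Complex.norm_real,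
      Real.norm_of_nonneg (by positivity)]
    have h5 : (mkR β fun i j => Matrix.of (z • Q - P) i j) = Matrix.of (mk β (z • Q - P)) := rfl
    rw [h5]
    field_simp
  rw [Gd, hdet, hpp, hgA, hgB, ge_mk, ge_mk, nv_mul]
  have h6 : ENNReal.ofReal (Real.exp (-((1 + ‖z‖ ^ 2) * nv (ρ⁻¹ • β)))) =
      ENNReal.ofReal (Real.exp (-(‖z‖ ^ 2 * nv (ρ⁻¹ • β)))) *
        ENNReal.ofReal (Real.exp (-nv (ρ⁻¹ • β))) := by
    rw [← ENNReal.ofReal_mul (by positivity), ← Real.exp_add]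
    congr 2
    ring
  rw [h6]
  ring

lemma inner_y (y : Fin N → ℂ) {Ψ : (Fin (N + 2) → ℂ) → ℝ≥0∞}
    (hinv : ∀ (ω : ℂ) (f), ‖ω‖ = 1 → Ψ (ω • f) = Ψ f) (z : ℂ) :
    ∫⁻ β : Fin (N + 1) → ℂ, ∫⁻ P : Fin (N + 1) → Fin N → ℂ, ∫⁻ Q : Fin (N + 1) → Fin N → ℂ,
      ENNReal.ofReal (‖(Matrix.of (mk β (z • Q - P))).det‖ ^ 2) *
      (Ψ (pcoef (N + 1) (ppoly (mk (fun i => z * β i - ∑ j, P i j * y j) P,
        mk (fun i => β i - ∑ j, Q i j * y j) Q))) *
          (ge (mk (fun i => z * β i - ∑ j, P i j * y j) P) *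
            ge (mk (fun i => β i - ∑ j, Q i j * y j) Q))) =
      (cY y * cY y * ENNReal.ofReal
        (Real.sqrt (1 + nv y) ^ (Module.finrank ℝ (Fin (N + 1) → ℂ)))) * Jz Ψ z := by
  have hpos : 0 < 1 + nv y := by have := nv_nonneg y; linarith
  set ρ := Real.sqrt (1 + nv y) with hρdef
  have hρ : 0 < ρ := Real.sqrt_pos.2 hpos
  have hρ2 : ρ ^ 2 = 1 + nv y := Real.sq_sqrt hpos.le
  obtain ⟨V, hV, hVx⟩ := exists_unitary (fun i => ((ρ⁻¹ : ℝ) : ℂ) * (Fin.cons 1 y : Fin (N + 1) → ℂ) i)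
    (by
      rw [nv_mul, Complex.norm_real, Real.norm_of_nonneg (by positivity)]
      have : nv (Fin.cons 1 y : Fin (N + 1) → ℂ) = 1 + nv y := by
        unfold nv
        rw [Fin.sum_univ_succ]
        simp
      rw [this, ← hρ2]
      field_simp)
  have h0 : V 0 0 = ((ρ⁻¹ : ℝ) : ℂ) := by
    rw [hVx]
    simp
  have h1 : ∀ j, V j.succ 0 = y j * V 0 0 := by
    intro j
    rw [hVx, h0]
    simp only [Fin.cons_succ]
    ring
  have hK : IsUnit (KK y V).det := by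
    have h3 := det_KK y V h1
    have h4 := norm_det_unitary hV
    rw [isUnit_iff_ne_zero]
    intro h5
    rw [h3, h5, mul_zero, norm_zero] at h4
    norm_num at h4
  obtain ⟨c, hc0, hct, hc⟩ := rmul_change (N + 1) (KK y V) hK
  have hcY : cY y = c := by
    unfold cY
    have h2 : ∀ P : Fin (N + 1) → Fin N → ℂ,
        ge (mk (fun i => -∑ j, P i j * y j) P) = ge (rmul (N + 1) (KK y V) P) := by
      intro P
      have e1 := mkR_mul_V y V h1 (fun _ => 0) P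
      have e2 := nsq_mul_unitary (mkR (fun i => (0 : ℂ) - ∑ j, P i j * y j) P) hV
      rw [e1] at e2
      have e3 := nsq_mk (fun i => V 0 0 * 0) (fun i k => (0 : ℂ) * V 0 k.succ + (Matrix.of P * KK y V) i k)
      have e4 : nsq (mk (fun i => (0 : ℂ) - ∑ j, P i j * y j) P) =
          nv (fun _ : Fin (N + 1) => V 0 0 * 0) +
          nsq (fun i k => (0 : ℂ) * V 0 k.succ + (Matrix.of P * KK y V) i k) := by
        rw [← e3]
        exact e2.symm
      unfold ge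
      congr 3
      simp only [zero_sub, mul_zero, zero_mul, zero_add] at e4
      rw [e4]
      have e5 : nv (fun _ : Fin (N + 1) => (0 : ℂ)) = 0 := by
        simp [nv]
      rw [e5, zero_add]
      rfl
    simp only [h2]
    have h3 := hc 0 ge
    simp only [zero_add] at h3
    rw [h3, ← mul_assoc, mul_comm _ c, mul_assoc, gin_ge, mul_one]
  have h2 : ∀ β : Fin (N + 1) → ℂ,
      ∫⁻ P : Fin (N + 1) → Fin N → ℂ, ∫⁻ Q : Fin (N + 1) → Fin N → ℂ,
        Gd Ψ z (ρ⁻¹ • β) ((fun i k => z * β i * V 0 k.succ) + rmul (N + 1) (KK y V) P)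
        ((fun i k => β i * V 0 k.succ) + rmul (N + 1) (KK y V) Q) =
      c * c * ∫⁻ P : Fin (N + 1) → Fin N → ℂ, ∫⁻ Q : Fin (N + 1) → Fin N → ℂ,
        Gd Ψ z (ρ⁻¹ • β) P Q := by
    intro β
    have e1 : ∀ P' : Fin (N + 1) → Fin N → ℂ, ∫⁻ Q : Fin (N + 1) → Fin N → ℂ,
        Gd Ψ z (ρ⁻¹ • β) P' ((fun i k => β i * V 0 k.succ) + rmul (N + 1) (KK y V) Q) =
        c * ∫⁻ Q : Fin (N + 1) → Fin N → ℂ, Gd Ψ z (ρ⁻¹ • β) P' Q := fun P' =>
      hc _ (fun Q => Gd Ψ z (ρ⁻¹ • β) P' Q)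
    simp only [e1]
    rw [lintegral_const_mul' _ _ hct,
      hc _ (fun P => ∫⁻ Q : Fin (N + 1) → Fin N → ℂ, Gd Ψ z (ρ⁻¹ • β) P Q), mul_assoc]
  have h3 : ∀ (β : Fin (N + 1) → ℂ) (P Q : Fin (N + 1) → Fin N → ℂ), _ :=
    fun β P Q => integrand_eq hinv hρ y hV h0 h1 z β P Q
  simp only [h3, h2]
  rw [lintegral_const_mul' _ _ (ENNReal.mul_ne_top hct hct),
    scale_change (N + 1) hρ (fun β => ∫⁻ P : Fin (N + 1) → Fin N → ℂ,
      ∫⁻ Q : Fin (N + 1) → Fin N → ℂ, Gd Ψ z β P Q), hcY, Jz]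
  ring

/-- elimination of the eigenvector -/
theorem stepA (hKR : KacRice N) : ∃ K : ℝ≥0∞, ∀ Ψ : (Fin (N + 2) → ℂ) → ℝ≥0∞, Measurable Ψ →
    (∀ (ω : ℂ) (f), ‖ω‖ = 1 → Ψ (ω • f) = Ψ f) →
      ∫⁻ M, Ψ (pcoef (N + 1) (ppoly M)) ∂(pen (N + 1)) = K * ∫⁻ z, Jz Ψ z := by
  refine ⟨(N + 1 : ℝ≥0∞)⁻¹ * (gc (N + 1) (N + 1) * gc (N + 1) (N + 1)) *
    ∫⁻ y : Fin N → ℂ, (cY y * cY y * ENNReal.ofReal
        (Real.sqrt (1 + nv y) ^ (Module.finrank ℝ (Fin (N + 1) → ℂ)))), fun Ψ hΨ hinv => ?_⟩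
  have hm : Measurable fun M : (Fin (N + 1) → Fin (N + 1) → ℂ) × (Fin (N + 1) → Fin (N + 1) → ℂ) =>
      Ψ (pcoef (N + 1) (ppoly M)) :=
    hΨ.comp (MP.pcoef (MP.ppoly measurable_fst measurable_snd) _)
  have hg : Measurable fun M : (Fin (N + 1) → Fin (N + 1) → ℂ) × (Fin (N + 1) → Fin (N + 1) → ℂ) =>
      Ψ (pcoef (N + 1) (ppoly M)) * (ge M.1 * ge M.2) :=
    hm.mul ((measurable_ge.comp measurable_fst).mul (measurable_ge.comp measurable_snd))
  have h1 : ∫⁻ M, Ψ (pcoef (N + 1) (ppoly M)) ∂(pen (N + 1)) =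
      gc (N + 1) (N + 1) * gc (N + 1) (N + 1) *
        ∫⁻ M : (Fin (N + 1) → Fin (N + 1) → ℂ) × (Fin (N + 1) → Fin (N + 1) → ℂ),
          Ψ (pcoef (N + 1) (ppoly M)) * (ge M.1 * ge M.2) := by
    unfold pen
    rw [lintegral_prod _ hm.aemeasurable]
    simp only [← lintegral_ge]
    have h2 := lintegral_prod (μ := (volume : Measure (Fin (N + 1) → Fin (N + 1) → ℂ)))
      (ν := (volume : Measure (Fin (N + 1) → Fin (N + 1) → ℂ))) _ hg.aemeasurable
    have h3 : (volume : Measure ((Fin (N + 1) → Fin (N + 1) → ℂ) × (Fin (N + 1) → Fin (N + 1) → ℂ))) =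
      (volume : Measure (Fin (N + 1) → Fin (N + 1) → ℂ)).prod volume := rfl
    rw [h3, h2]
    have h4 : ∀ A : Fin (N + 1) → Fin (N + 1) → ℂ,
        gc (N + 1) (N + 1) * (∫⁻ B : Fin (N + 1) → Fin (N + 1) → ℂ,
          Ψ (pcoef (N + 1) (ppoly (A, B))) * ge B) * ge A = gc (N + 1) (N + 1) *
        ∫⁻ B : Fin (N + 1) → Fin (N + 1) → ℂ,
          Ψ (pcoef (N + 1) (ppoly (A, B))) * (ge A * ge B) := by
      intro A
      rw [mul_assoc, ← lintegral_mul_const']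
      · congr 1
        refine lintegral_congr fun B => ?_
        ring
      · unfold ge; exact ENNReal.ofReal_ne_top
    simp only [h4]
    rw [lintegral_const_mul' _ _ (gc_ne_top _ _), mul_assoc]
  have h2 := hKR _ hg
  have hκ : Measurable fun y : Fin N → ℂ => (cY y * cY y * ENNReal.ofReal
        (Real.sqrt (1 + nv y) ^ (Module.finrank ℝ (Fin (N + 1) → ℂ)))) := by
    refine (measurable_cY.mul measurable_cY).mul (ENNReal.measurable_ofReal.comp ?_)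
    exact (Real.continuous_sqrt.measurable.comp
      (measurable_const.add continuous_nv.measurable)).pow_const _
  simp only [inner_y _ hinv] at h2
  simp only [lintegral_mul_const _ hκ] at h2
  rw [lintegral_const_mul _ (measurable_Jz hΨ)] at h2
  have h3 : ((N : ℝ≥0∞) + 1) ≠ 0 := by simp
  have h4 : ((N : ℝ≥0∞) + 1) ≠ ∞ := by simp
  have h5 : ∫⁻ M : (Fin (N + 1) → Fin (N + 1) → ℂ) × (Fin (N + 1) → Fin (N + 1) → ℂ),
      Ψ (pcoef (N + 1) (ppoly M)) * (ge M.1 * ge M.2) = (N + 1 : ℝ≥0∞)⁻¹ *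
      ((N + 1 : ℝ≥0∞) *
        ∫⁻ M : (Fin (N + 1) → Fin (N + 1) → ℂ) × (Fin (N + 1) → Fin (N + 1) → ℂ),
          Ψ (pcoef (N + 1) (ppoly M)) * (ge M.1 * ge M.2)) := by
    rw [← mul_assoc, ENNReal.inv_mul_cancel h3 h4, one_mul]
  rw [h1, h5, h2]
  ring

end Pool.Agent.helper28.SG
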