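import Pool.Agent.helper28.SG.StepA

/-!
# Deflation, second step: elimination of one row, radial integration
-/

set_option autoImplicit false
open MeasureTheory ProbabilityTheory Filter Topology
open scoped NNReal ENNReal

namespace Pool.Agent.helper28.SG

open Pool.Agent.helper84.SG Polynomial

variable {N : ℕ}

lemma gin_succ (f : (Fin N → Fin N → ℂ) → ℝ≥0∞) (hf : Measurable f) :
    ∫⁻ P, f (fun i => P i.succ) ∂(gin (N + 1) N) = ∫⁻ P, f P ∂(gin N N) := by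
  have h1 := measurePreserving_piFinSuccAbove
    (fun _ : Fin (N + 1) => (Measure.pi fun _ : Fin N => cg)) 0
  have h2 := (measurePreserving_snd
    (μ := (Measure.pi fun _ : Fin N => cg)) (ν := gin N N)).comp h1
  have h3 := h2.lintegral_comp hf
  rw [← h3]
  rfl

/-- integral over the smaller pencil -/
noncomputable def Hf (Ψ : (Fin (N + 2) → ℂ) → ℝ≥0∞) (z : ℂ) (r : ℝ) : ℝ≥0∞ :=
  ∫⁻ M' : (Fin N → Fin N → ℂ) × (Fin N → Fin N → ℂ), ENNReal.ofReal (‖pf M' (z, 1)‖ ^ 2) *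
    Ψ (pcoef (N + 1) ((X - C z) * (C (r : ℂ) * ppoly M'))) ∂(pen N)

lemma measurable_F {Ψ : (Fin (N + 2) → ℂ) → ℝ≥0∞} (hΨ : Measurable Ψ) {α : Type*}
    [MeasurableSpace α] {z : α → ℂ} {r : α → ℝ}
    {A B : α → Fin N → Fin N → ℂ} (hz : Measurable z) (hr : Measurable r) (hA : Measurable A)
    (hB : Measurable B) :
    Measurable fun a => ENNReal.ofReal (‖pf (A a, B a) (z a, 1)‖ ^ 2) *
    Ψ (pcoef (N + 1) ((X - C (z a)) * (C ((r a : ℝ) : ℂ) * ppoly (A a, B a)))) := by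
  have m1 : Measurable fun a => pf (A a, B a) (z a, 1) := measurable_pf hA hB (by fun_prop)
  have m2 : Measurable fun a => pcoef (N + 1) ((X - C (z a)) * (C ((r a : ℝ) : ℂ) *
      ppoly (A a, B a))) :=
    MP.pcoef (((MP.const X).sub (MP.C hz)).mul ((MP.C (by fun_prop)).mul (MP.ppoly hA hB))) _
  exact (ENNReal.measurable_ofReal.comp (m1.norm.pow_const 2)).mul (hΨ.comp m2)

lemma measurable_Hf {Ψ : (Fin (N + 2) → ℂ) → ℝ≥0∞} (hΨ : Measurable Ψ) (z : ℂ) :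
    Measurable (Hf Ψ z) := by
  have h := measurable_F hΨ (α := ℝ × ((Fin N → Fin N → ℂ) × (Fin N → Fin N → ℂ)))
    (z := fun _ => z) (r := fun p => p.1) (A := fun p => p.2.1) (B := fun p => p.2.2)
    (by fun_prop) (by fun_prop) (by fun_prop) (by fun_prop)
  exact h.lintegral_prod_right'

lemma pcoef_C_mul (n : ℕ) (p : ℂ[X]) (u : ℂ) : pcoef n (C u * p) = u • pcoef n p := by
  rw [mul_comm, pcoef_mul_C]

lemma inner_β {Ψ : (Fin (N + 2) → ℂ) → ℝ≥0∞} (hΨ : Measurable Ψ)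
    (hinv : ∀ (ω : ℂ) (f), ‖ω‖ = 1 → Ψ (ω • f) = Ψ f) (z : ℂ) (β : Fin (N + 1) → ℂ) :
    ∫⁻ P, ∫⁻ Q, ENNReal.ofReal (‖(Matrix.of (mk β (z • Q - P))).det‖ ^ 2) *
      Ψ (pcoef (N + 1) ((X - C z) * cpoly β P Q)) ∂(gin (N + 1) N) ∂(gin (N + 1) N) =
    ENNReal.ofReal (nv β) * Hf Ψ z (Real.sqrt (nv β)) := by
  rcases eq_or_lt_of_le (nv_nonneg β) with h0 | h0
  · rw [← h0]
    have hβ : β = fun i => 0 * (0 : ℂ) := by
      funext i
      have := (Finset.sum_eq_zero_iff_of_nonneg (fun i _ => by positivity)).1 h0.symm i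
        (Finset.mem_univ i)
      simpa using this
    have h1 : ∀ P Q : Fin (N + 1) → Fin N → ℂ, (Matrix.of (mk β (z • Q - P))).det = 0 := by
      intro P Q
      rw [hβ, of_mk, det_mkR_smul 0 (fun _ => (0 : ℂ)), zero_mul]
    simp [h1]
  · set r := Real.sqrt (nv β) with hr
    have hr0 : 0 < r := Real.sqrt_pos.2 h0
    have hr2 : r ^ 2 = nv β := Real.sq_sqrt h0.le
    obtain ⟨V, hV, hVx⟩ := exists_unitary (fun i => ((r⁻¹ : ℝ) : ℂ) * β i) (by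
      rw [nv_mul, Complex.norm_real, Real.norm_of_nonneg (by positivity), ← hr2]
      field_simp)
    have hβ : β = fun i => (r : ℂ) * V i 0 := by
      funext i
      rw [hVx, ← mul_assoc, ← Complex.ofReal_mul, mul_inv_cancel₀ hr0.ne']
      simp
    have h1 : ∀ f : (Fin (N + 1) → Fin N → ℂ) → (Fin (N + 1) → Fin N → ℂ) → ℝ≥0∞,
        ∫⁻ P, ∫⁻ Q, f P Q ∂(gin (N + 1) N) ∂(gin (N + 1) N) =
        ∫⁻ P, ∫⁻ Q, f (lmul N V P) (lmul N V Q) ∂(gin (N + 1) N) ∂(gin (N + 1) N) := by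
      intro f
      rw [← gin_unitary hV]
      refine lintegral_congr fun P => ?_
      rw [← gin_unitary hV]
    rw [h1]
    have h2 : ∀ P Q : Fin (N + 1) → Fin N → ℂ,
        ENNReal.ofReal (‖(Matrix.of (mk β (z • lmul N V Q - lmul N V P))).det‖ ^ 2) *
          Ψ (pcoef (N + 1) ((X - C z) * cpoly β (lmul N V P) (lmul N V Q))) =
        ENNReal.ofReal (nv β) * (ENNReal.ofReal
          (‖pf ((fun i : Fin N => P i.succ), (fun i : Fin N => Q i.succ)) (z, 1)‖ ^ 2) *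
          Ψ (pcoef (N + 1) ((X - C z) * (C (r : ℂ) *
            ppoly ((fun i : Fin N => P i.succ), (fun i : Fin N => Q i.succ)))))) := by
      intro P Q
      have e1 : ‖(Matrix.of (mk β (z • lmul N V Q - lmul N V P))).det‖ ^ 2 =
          nv β * ‖pf ((fun i : Fin N => P i.succ), (fun i : Fin N => Q i.succ)) (z, 1)‖ ^ 2 := by
        rw [← hr2]
        conv_lhs => rw [hβ]
        rw [det_lmul, norm_mul, norm_mul, norm_det_unitary hV, Complex.norm_real,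
          Real.norm_of_nonneg hr0.le, one_mul, mul_pow]
        rfl
      have e2 : (X - C z) * cpoly β (lmul N V P) (lmul N V Q) = C V.det * ((X - C z) *
          (C (r : ℂ) * ppoly ((fun i : Fin N => P i.succ), (fun i : Fin N => Q i.succ)))) := by
        conv_lhs => rw [hβ]
        rw [cpoly_lmul]
        ring
      rw [e1, e2, pcoef_C_mul, hinv _ _ (norm_det_unitary hV), ENNReal.ofReal_mul (nv_nonneg β),
        mul_assoc]
    simp only [h2]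
    have h3 : ∀ P : Fin (N + 1) → Fin N → ℂ, ∫⁻ Q, ENNReal.ofReal (nv β) * (ENNReal.ofReal
          (‖pf ((fun i : Fin N => P i.succ), (fun i : Fin N => Q i.succ)) (z, 1)‖ ^ 2) *
          Ψ (pcoef (N + 1) ((X - C z) * (C (r : ℂ) *
            ppoly ((fun i : Fin N => P i.succ), (fun i : Fin N => Q i.succ)))))) ∂(gin (N + 1) N) =
        ENNReal.ofReal (nv β) * ∫⁻ Q, (ENNReal.ofReal
          (‖pf ((fun i : Fin N => P i.succ), Q) (z, 1)‖ ^ 2) *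
          Ψ (pcoef (N + 1) ((X - C z) * (C (r : ℂ) *
            ppoly ((fun i : Fin N => P i.succ), Q))))) ∂(gin N N) := by
      intro P
      rw [lintegral_const_mul' _ _ ENNReal.ofReal_ne_top]
      congr 1
      exact gin_succ (fun Q => ENNReal.ofReal
          (‖pf ((fun i : Fin N => P i.succ), Q) (z, 1)‖ ^ 2) *
          Ψ (pcoef (N + 1) ((X - C z) * (C (r : ℂ) *
            ppoly ((fun i : Fin N => P i.succ), Q)))))
        (measurable_F hΨ (r := fun _ => r) (by fun_prop) (by fun_prop) (by fun_prop) (by fun_prop))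
    simp only [h3]
    rw [lintegral_const_mul' _ _ ENNReal.ofReal_ne_top]
    congr 1
    have hm : Measurable fun M' : (Fin N → Fin N → ℂ) × (Fin N → Fin N → ℂ) =>
        ENNReal.ofReal (‖pf M' (z, 1)‖ ^ 2) *
          Ψ (pcoef (N + 1) ((X - C z) * (C (r : ℂ) * ppoly M'))) :=
      measurable_F hΨ (r := fun _ => r) (A := Prod.fst) (B := Prod.snd) (by fun_prop) (by fun_prop)
        (by fun_prop) (by fun_prop)
    unfold Hf pen
    rw [lintegral_prod _ hm.aemeasurable]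
    exact gin_succ (fun P => ∫⁻ Q, ENNReal.ofReal (‖pf (P, Q) (z, 1)‖ ^ 2) *
          Ψ (pcoef (N + 1) ((X - C z) * (C (r : ℂ) * ppoly (P, Q)))) ∂(gin N N))
      hm.lintegral_prod_right'

/-- the target functional -/
noncomputable def Tf (Ψ : (Fin (N + 2) → ℂ) → ℝ≥0∞) (v : ℂ × ℂ) : ℝ≥0∞ :=
  ∫⁻ M' : (Fin N → Fin N → ℂ) × (Fin N → Fin N → ℂ), ENNReal.ofReal (‖pf M' v‖ ^ 2) *
    Ψ (pcoef (N + 1) ((C v.2 * X - C v.1) * ppoly M')) ∂(pen N)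

lemma measurable_Tf {Ψ : (Fin (N + 2) → ℂ) → ℝ≥0∞} (hΨ : Measurable Ψ) :
    Measurable (Tf Ψ) := by
  have m1 : Measurable fun a : (ℂ × ℂ) × ((Fin N → Fin N → ℂ) × (Fin N → Fin N → ℂ)) =>
      pf (a.2.1, a.2.2) a.1 := measurable_pf (by fun_prop) (by fun_prop) (by fun_prop)
  have m2 : Measurable fun a : (ℂ × ℂ) × ((Fin N → Fin N → ℂ) × (Fin N → Fin N → ℂ)) =>
      pcoef (N + 1) ((C a.1.2 * X - C a.1.1) * ppoly (a.2.1, a.2.2)) :=
    MP.pcoef ((((MP.C (by fun_prop)).mul (MP.const X)).sub (MP.C (by fun_prop))).mul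
      (MP.ppoly (by fun_prop) (by fun_prop))) _
  have h := (ENNReal.measurable_ofReal.comp (m1.norm.pow_const 2)).mul (hΨ.comp m2)
  exact h.lintegral_prod_right'

lemma Hf_eq {Ψ : (Fin (N + 2) → ℂ) → ℝ≥0∞}
    (hinv : ∀ (ω : ℂ) (f), ‖ω‖ = 1 → Ψ (ω • f) = Ψ f) (z b : ℂ) :
    Hf Ψ z ‖b‖ * ENNReal.ofReal (‖b‖ ^ (2 * N)) = Tf Ψ (b * z, b) := by
  unfold Hf Tf
  rw [← lintegral_mul_const' _ _ ENNReal.ofReal_ne_top]
  refine lintegral_congr fun M' => ?_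
  obtain ⟨ω, hω, hb⟩ : ∃ ω : ℂ, ‖ω‖ = 1 ∧ b = ω * (‖b‖ : ℂ) := by
    by_cases h : b = 0
    · exact ⟨1, by simp, by simp [h]⟩
    · refine ⟨b / (‖b‖ : ℂ), ?_, ?_⟩
      · rw [norm_div, Complex.norm_real, norm_norm, div_self (norm_ne_zero_iff.2 h)]
      · have : (‖b‖ : ℂ) ≠ 0 := by
          rw [Ne, Complex.ofReal_eq_zero]
          exact norm_ne_zero_iff.2 h
        field_simp
  have e1 : pf M' (b * z, b) = b ^ N * pf M' (z, 1) := by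
    unfold pf
    have : (b * z) • Matrix.of M'.2 - b • Matrix.of M'.1 =
        b • (z • Matrix.of M'.2 - (1 : ℂ) • Matrix.of M'.1) := by
      rw [smul_sub, smul_smul, one_smul]
    simp only [this]
    rw [Matrix.det_smul, Fintype.card_fin]
  have e2 : (C b * X - C (b * z)) * ppoly M' =
      C ω * ((X - C z) * (C ((‖b‖ : ℝ) : ℂ) * ppoly M')) := by
    have : (C b : ℂ[X]) = C ω * C ((‖b‖ : ℝ) : ℂ) := by
      rw [← C_mul, ← hb]
    rw [C_mul, this]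
    ring
  simp only [e1, e2]
  rw [pcoef_C_mul, hinv _ _ hω, norm_mul, norm_pow, mul_pow, ← pow_mul, mul_comm N 2,
    ENNReal.ofReal_mul (by positivity)]
  ring

lemma Jz_eq (C0 : ℝ≥0∞) (hC0 : ∀ h : ℝ → ℝ≥0∞, Measurable h →
    ∫⁻ β : Fin (N + 1) → ℂ, h (Real.sqrt (nv β)) =
      C0 * ∫⁻ b : ℂ, h ‖b‖ * ENNReal.ofReal (‖b‖ ^ (2 * N)))
    {Ψ : (Fin (N + 2) → ℂ) → ℝ≥0∞} (hΨ : Measurable Ψ)
    (hinv : ∀ (ω : ℂ) (f), ‖ω‖ = 1 → Ψ (ω • f) = Ψ f) (z : ℂ) :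
    gc (N + 1) N * gc (N + 1) N * Jz Ψ z = C0 * ∫⁻ b : ℂ, ENNReal.ofReal (‖b‖ ^ 2) *
      (ENNReal.ofReal (Real.exp (-‖b * z‖ ^ 2)) * ENNReal.ofReal (Real.exp (-‖b‖ ^ 2)) *
        Tf Ψ (b * z, b)) := by
  have h1 : ∀ β : Fin (N + 1) → ℂ, gc (N + 1) N * gc (N + 1) N *
      ∫⁻ P : Fin (N + 1) → Fin N → ℂ, ∫⁻ Q : Fin (N + 1) → Fin N → ℂ, Gd Ψ z β P Q =
      ENNReal.ofReal (Real.exp (-((1 + ‖z‖ ^ 2) * (Real.sqrt (nv β)) ^ 2))) *
        (ENNReal.ofReal ((Real.sqrt (nv β)) ^ 2) * Hf Ψ z (Real.sqrt (nv β))) := by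
    intro β
    rw [Real.sq_sqrt (nv_nonneg β), ← inner_β hΨ hinv z β]
    simp only [← lintegral_ge]
    rw [mul_left_comm (ENNReal.ofReal _), ← lintegral_const_mul' _ _ ENNReal.ofReal_ne_top,
      mul_assoc]
    congr 1
    rw [← lintegral_const_mul' _ _ (gc_ne_top _ _)]
    refine lintegral_congr fun P => ?_
    have e1 : ∀ Q : Fin (N + 1) → Fin N → ℂ, Gd Ψ z β P Q =
        (ENNReal.ofReal (Real.exp (-((1 + ‖z‖ ^ 2) * nv β))) * ge P) *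
        (ENNReal.ofReal (‖(Matrix.of (mk β (z • Q - P))).det‖ ^ 2) *
          Ψ (pcoef (N + 1) ((X - C z) * cpoly β P Q)) * ge Q) := by
      intro Q
      unfold Gd
      ring
    simp only [e1]
    rw [lintegral_const_mul' _ _ (ENNReal.mul_ne_top ENNReal.ofReal_ne_top
      (by unfold ge; exact ENNReal.ofReal_ne_top))]
    ring
  rw [Jz, ← lintegral_const_mul' _ _ (ENNReal.mul_ne_top (gc_ne_top _ _) (gc_ne_top _ _))]
  simp only [h1]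
  rw [hC0 (fun r => ENNReal.ofReal (Real.exp (-((1 + ‖z‖ ^ 2) * r ^ 2))) *
        (ENNReal.ofReal (r ^ 2) * Hf Ψ z r))]
  · congr 1
    refine lintegral_congr fun b => ?_
    rw [← Hf_eq hinv, ← ENNReal.ofReal_mul (by positivity), ← Real.exp_add]
    have : -‖b * z‖ ^ 2 + -‖b‖ ^ 2 = -((1 + ‖z‖ ^ 2) * ‖b‖ ^ 2) := by
      rw [norm_mul]; ring
    rw [this]
    ring
  · have := measurable_Hf hΨ z
    fun_prop

lemma lintegral_cg (f : ℂ → ℝ≥0∞) : ∫⁻ a, f a ∂cg =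
    ENNReal.ofReal Real.pi⁻¹ * ∫⁻ a, f a * ENNReal.ofReal (Real.exp (-‖a‖ ^ 2)) := by
  have hpi := Real.pi_pos
  rw [cg_eq, lintegral_withDensity_eq_lintegral_mul_non_measurable _ measurable_phi,
    ← lintegral_const_mul' _ _ ENNReal.ofReal_ne_top]
  · refine lintegral_congr fun a => ?_
    simp only [Pi.mul_apply, phi]
    rw [ENNReal.ofReal_mul (by positivity)]
    ring
  · exact ae_of_all _ fun a => by unfold phi; exact ENNReal.ofReal_lt_top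

theorem stepB (N : ℕ) : ∃ K : ℝ≥0∞, ∀ Ψ : (Fin (N + 2) → ℂ) → ℝ≥0∞, Measurable Ψ →
    (∀ (ω : ℂ) (f), ‖ω‖ = 1 → Ψ (ω • f) = Ψ f) →
      ∫⁻ z, Jz Ψ z = K * ∫⁻ v, Tf Ψ v ∂(cg.prod cg) := by
  obtain ⟨C0, hC0⟩ := radial N
  have hpi := Real.pi_pos
  refine ⟨(gc (N + 1) N * gc (N + 1) N)⁻¹ * C0 * (ENNReal.ofReal Real.pi⁻¹)⁻¹ *
    (ENNReal.ofReal Real.pi⁻¹)⁻¹, fun Ψ hΨ hinv => ?_⟩
  have hp0 : ENNReal.ofReal Real.pi⁻¹ ≠ 0 := by
    simp only [ne_eq, ENNReal.ofReal_eq_zero, not_le]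
    positivity
  have hg0 : gc (N + 1) N * gc (N + 1) N ≠ 0 := mul_ne_zero (gc_ne_zero _ _) (gc_ne_zero _ _)
  have hgt : gc (N + 1) N * gc (N + 1) N ≠ ∞ := ENNReal.mul_ne_top (gc_ne_top _ _) (gc_ne_top _ _)
  have hT := measurable_Tf hΨ
  -- right side
  have h1 : ∫⁻ v, Tf Ψ v ∂(cg.prod cg) = ENNReal.ofReal Real.pi⁻¹ * ENNReal.ofReal Real.pi⁻¹ *
      ∫⁻ a : ℂ, ∫⁻ b : ℂ, ENNReal.ofReal (Real.exp (-‖a‖ ^ 2)) *
        ENNReal.ofReal (Real.exp (-‖b‖ ^ 2)) * Tf Ψ (a, b) := by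
    rw [lintegral_prod _ hT.aemeasurable]
    simp only [lintegral_cg]
    have h7 : ∀ a : ℂ, ENNReal.ofReal Real.pi⁻¹ *
        (∫⁻ b : ℂ, Tf Ψ (a, b) * ENNReal.ofReal (Real.exp (-‖b‖ ^ 2))) *
          ENNReal.ofReal (Real.exp (-‖a‖ ^ 2)) = ENNReal.ofReal Real.pi⁻¹ *
        ∫⁻ b : ℂ, ENNReal.ofReal (Real.exp (-‖a‖ ^ 2)) *
          ENNReal.ofReal (Real.exp (-‖b‖ ^ 2)) * Tf Ψ (a, b) := by
      intro a
      rw [mul_assoc, ← lintegral_mul_const' _ _ ENNReal.ofReal_ne_top]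
      congr 1
      refine lintegral_congr fun b => ?_
      ring
    simp only [h7]
    rw [lintegral_const_mul' _ _ ENNReal.ofReal_ne_top, mul_assoc]
  -- left side
  have h2 : gc (N + 1) N * gc (N + 1) N * ∫⁻ z, Jz Ψ z = C0 * ∫⁻ a : ℂ, ∫⁻ b : ℂ,
      ENNReal.ofReal (Real.exp (-‖a‖ ^ 2)) *
        ENNReal.ofReal (Real.exp (-‖b‖ ^ 2)) * Tf Ψ (a, b) := by
    rw [← lintegral_const_mul' _ _ hgt]
    simp only [Jz_eq C0 hC0 hΨ hinv]
    have hm : Measurable fun p : ℂ × ℂ => ENNReal.ofReal (‖p.2‖ ^ 2) *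
      (ENNReal.ofReal (Real.exp (-‖p.2 * p.1‖ ^ 2)) * ENNReal.ofReal (Real.exp (-‖p.2‖ ^ 2)) *
        Tf Ψ (p.2 * p.1, p.2)) := by fun_prop
    have hm1 : Measurable fun z : ℂ => ∫⁻ b : ℂ, ENNReal.ofReal (‖b‖ ^ 2) *
      (ENNReal.ofReal (Real.exp (-‖b * z‖ ^ 2)) * ENNReal.ofReal (Real.exp (-‖b‖ ^ 2)) *
        Tf Ψ (b * z, b)) := hm.lintegral_prod_right'
    rw [lintegral_const_mul _ hm1, lintegral_lintegral_swap hm.aemeasurable]
    have h3 : ∀ᵐ b : ℂ, ∫⁻ z : ℂ, ENNReal.ofReal (‖b‖ ^ 2) *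
      (ENNReal.ofReal (Real.exp (-‖b * z‖ ^ 2)) * ENNReal.ofReal (Real.exp (-‖b‖ ^ 2)) *
        Tf Ψ (b * z, b)) = ∫⁻ a : ℂ, ENNReal.ofReal (Real.exp (-‖a‖ ^ 2)) *
        ENNReal.ofReal (Real.exp (-‖b‖ ^ 2)) * Tf Ψ (a, b) := by
      have h4 : ∀ᵐ b : ℂ, b ≠ 0 := by
        rw [ae_iff]
        simp
      filter_upwards [h4] with b hb
      exact cmul_change hb (fun a => ENNReal.ofReal (Real.exp (-‖a‖ ^ 2)) *
        ENNReal.ofReal (Real.exp (-‖b‖ ^ 2)) * Tf Ψ (a, b))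
    rw [lintegral_congr_ae h3]
    congr 1
    have hm2 : Measurable fun p : ℂ × ℂ => ENNReal.ofReal (Real.exp (-‖p.2‖ ^ 2)) *
        ENNReal.ofReal (Real.exp (-‖p.1‖ ^ 2)) * Tf Ψ (p.2, p.1) := by fun_prop
    exact lintegral_lintegral_swap hm2.aemeasurable
  have h5 : ∫⁻ z, Jz Ψ z = (gc (N + 1) N * gc (N + 1) N)⁻¹ *
      (gc (N + 1) N * gc (N + 1) N * ∫⁻ z, Jz Ψ z) := by
    rw [← mul_assoc, ENNReal.inv_mul_cancel hg0 hgt, one_mul]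
  rw [h5, h2, h1]
  set I := ∫⁻ a : ℂ, ∫⁻ b : ℂ, ENNReal.ofReal (Real.exp (-‖a‖ ^ 2)) *
        ENNReal.ofReal (Real.exp (-‖b‖ ^ 2)) * Tf Ψ (a, b)
  set p := ENNReal.ofReal Real.pi⁻¹
  have h6 : p⁻¹ * p = 1 := ENNReal.inv_mul_cancel hp0 ENNReal.ofReal_ne_top
  calc (gc (N + 1) N * gc (N + 1) N)⁻¹ * (C0 * I)
      = (gc (N + 1) N * gc (N + 1) N)⁻¹ * C0 * (p⁻¹ * p) * (p⁻¹ * p) * I := by
        rw [h6]; ring
    _ = _ := by ring

/-- **Deflation of a Gaussian pencil.** -/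
theorem deflation_of (hKR : KacRice N) : ∃ c : ℝ≥0∞, c ≠ 0 ∧ c ≠ ∞ ∧
    ∀ Ψ : (Fin (N + 2) → ℂ) → ℝ≥0∞, Measurable Ψ → (∀ (ω : ℂ) (f), ‖ω‖ = 1 → Ψ (ω • f) = Ψ f) →
      ∫⁻ M, Ψ (pcoef (N + 1) (ppoly M)) ∂(pen (N + 1)) =
        c * ∫⁻ v, ∫⁻ M', ENNReal.ofReal (‖pf M' v‖ ^ 2) *
          Ψ (pcoef (N + 1) ((Polynomial.C v.2 * Polynomial.X - Polynomial.C v.1) * ppoly M'))
            ∂(pen N) ∂(cg.prod cg) := by
  obtain ⟨K1, h1⟩ := stepA hKR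
  obtain ⟨K2, h2⟩ := stepB N
  have h3 : ∀ Ψ : (Fin (N + 2) → ℂ) → ℝ≥0∞, Measurable Ψ →
      (∀ (ω : ℂ) (f), ‖ω‖ = 1 → Ψ (ω • f) = Ψ f) →
      ∫⁻ M, Ψ (pcoef (N + 1) (ppoly M)) ∂(pen (N + 1)) =
        (K1 * K2) * ∫⁻ v, Tf Ψ v ∂(cg.prod cg) := by
    intro Ψ hΨ hinv
    rw [h1 Ψ hΨ hinv, h2 Ψ hΨ hinv, mul_assoc]
  have h4 := h3 (fun _ => 1) measurable_const (fun _ _ _ => rfl)
  rw [lintegral_one, measure_univ] at h4
  refine ⟨K1 * K2, ?_, ?_, h3⟩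
  · intro h
    rw [h, zero_mul] at h4
    exact one_ne_zero h4
  · intro h
    rw [h] at h4
    by_cases h5 : ∫⁻ v, Tf (fun _ : Fin (N + 2) → ℂ => 1) v ∂(cg.prod cg) = 0
    · rw [h5, mul_zero] at h4
      exact one_ne_zero h4
    · rw [ENNReal.top_mul h5] at h4
      exact ENNReal.one_ne_top h4

end Pool.Agent.helper28.SG
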